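import Pool.Agent.MP_5daf37_lc.HG.Lin

/-!
Transfer matrices of linear systems over a number field, seen at its finite and infinite places.
-/

open Matrix Polynomial

namespace Pool.Agent.MP_5daf37_lc.DH
open FC HG

variable {O K : Type} [CommRing O] [Field K] {f : O →+* K}

theorem diag {ε : Type} [Fintype ε] [DecidableEq ε] (a b : ε → O) (hb : ∀ e, f (b e) ≠ 0) :
    Re f (∏ e, b e) (diagonal fun e => f (a e) / f (b e)) := by
  refine ⟨ε, inferInstance, inferInstance, diagonal b, diagonal fun e => (f (b e))⁻¹, diagonal a, 1,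
    ?_, det_diagonal, ?_⟩
  · rw [diagonal_map (map_zero _), diagonal_mul_diagonal, ← diagonal_one]
    congr 1
    funext e
    exact mul_inv_cancel₀ (hb e)
  · rw [diagonal_map (map_zero _), diagonal_mul_diagonal]
    simp [div_eq_mul_inv]

theorem reMk {ε : Type} [Fintype ε] [DecidableEq ε] (S : Finset ε) : Re f 1 (mk K S) :=
  mk_map f S ▸ Re.int _

theorem div {l : Type} [Fintype l] [DecidableEq l] {A B : Matrix l l K} {c c' : O}
    (hf : Function.Injective f) (h : Re f c A) (h' : Re f c' B) (π : O) (μ : ℕ)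
    (hr : (A - f π • B).rank + μ ≤ Fintype.card l) :
    ∃ z : O, f (c * c') * A.det = f (π ^ μ * z) := by
  have hc : ∀ x : O, mapRingHom f (C x) = C (f x) := fun x => by simp
  have h1 := (h.map C C hc).add
    ((Re.int (f := mapRingHom f) (diagonal fun _ : l => -X)).mul (h'.map C C hc))
  obtain ⟨ψ, hψ⟩ := h1.det
  have e : A.map C + (diagonal fun _ : l => (-X : O[X])).map (mapRingHom f) * B.map C =
      A.map C - (X : K[X]) • B.map C := by
    rw [diagonal_map (map_zero _)]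
    ext1 i j
    simp [sub_eq_add_neg]
  rw [e] at hψ
  have h2 := ord K K[X] l C (X - C (f π)) _ (A.map C - (X : K[X]) • B.map C) μ
    (fun i j => ⟨-C (B i j), by simp; ring⟩) hr
  have h3 : ((X - C π) ^ μ).map f ∣ ψ.map f := by
    rw [← coe_mapRingHom, hψ]
    simpa using h2.mul_left _
  obtain ⟨χ, rfl⟩ := (map_dvd_map f hf ((monic_X_sub_C π).pow μ)).1 h3
  refine ⟨(-1) ^ μ * χ.coeff 0, ?_⟩
  have h4 := congrArg (evalRingHom 0) hψ
  rw [map_mul (evalRingHom 0), RingHom.map_det] at h4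
  have e2 : (evalRingHom 0).mapMatrix (A.map C - (X : K[X]) • B.map C) = A := by
    ext i j; simp
  rw [e2] at h4
  simp [neg_pow (f π), ← coeff_zero_eq_eval_zero] at h4 ⊢
  rw [← h4]; ring

theorem reInt {O : Subring K} {l m : Type} [Fintype m] [DecidableEq m] {Z : Matrix l m K}
    (h : ∀ i j, Z i j ∈ O) : Re O.subtype 1 Z :=
  Re.int (f := O.subtype) (of fun i j => ⟨Z i j, h i j⟩)

variable {κ μ ι : Type} [Fintype κ] [Fintype μ] [DecidableEq μ] [Fintype ι] [DecidableEq ι]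
  {Φ : Matrix κ κ K} {β : (K →+* ℂ) → ℝ}

/-- The archimedean size of determinants that involve `Φ` twice. -/
def Two (Φ : Matrix κ κ K) (β : (K →+* ℂ) → ℝ) : Prop :=
  ∀ (σ : K →+* ℂ) (μ : Type) [Fintype μ] [DecidableEq μ] (F₁ F₂ : Matrix μ κ ℂ)
    (G₁ G₂ : Matrix κ μ ℂ) (Z : Matrix μ μ ℂ), L1 F₁ → L1 F₂ → L1 G₁ → L1 G₂ →
    (∀ i, ∑ j, ‖Z i j‖ ^ 2 ≤ 2) →
    ‖(Z + F₁ * Φ.map σ * G₁ + F₂ * Φ.map σ * G₂).det‖ ≤ β σ * 2 ^ Fintype.card μ

theorem two_of {ν : Type} [Fintype ν] [DecidableEq ν] {M G : Matrix ν ν K} {Q : Matrix κ ν K}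
    {P : Matrix ν κ K} (h1 : M * G = 1) (hd : M.det = 1) (B : (K →+* ℂ) → ν → ℝ)
    (hQ : ∀ σ : K →+* ℂ, L1 (Q.map σ))
    (hB : ∀ (σ : K →+* ℂ) v, ∑ u, ‖M.map σ v u‖ + ∑ j, ‖P.map σ v j‖ ≤ B σ v) :
    Two (Q * G * P) fun σ => (∏ v, B σ v) ^ 2 := by
  intro φ μ _ _ F₁ F₂ G₁ G₂ Z f₁ f₂ g₁ g₂ hZ
  have q1 := hQ φ
  have hρ := hB φ
  have h2 : M.map φ * G.map φ = 1 := by rw [← Matrix.map_mul, h1]; simp
  have h3 := schur' (M := fromBlocks (M.map φ) 0 0 (M.map φ))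
    (N := fromBlocks (G.map φ) 0 0 (G.map φ)) (by simp [fromBlocks_multiply, h2])
    (fromRows (P.map φ * G₁) (P.map φ * G₂)) (fromCols (F₁ * Q.map φ) (F₂ * Q.map φ)) Z
  rw [det_fromBlocks_zero₂₁, fromCols_mul_fromBlocks, fromCols_mul_fromRows, ← sq,
    ← RingHom.mapMatrix_apply, ← RingHom.map_det, hd, map_one, one_pow, one_mul] at h3
  simp only [Matrix.mul_zero, add_zero, zero_add, ← add_assoc, ← Matrix.mul_assoc] at h3
  simp only [Matrix.map_mul, ← Matrix.mul_assoc]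
  refine (congrArg norm h3).trans_le ?_
  have r1 : ∀ {G' : Matrix κ μ ℂ}, L1 G' → ∀ v,
      ∑ u, ‖M.map φ v u‖ ^ 2 + ∑ j, ‖(P.map φ * G') v j‖ ^ 2 ≤ B φ v ^ 2 := fun {G'} g v => by
    have a1 := Finset.sum_sq_le_sq_sum_of_nonneg (s := Finset.univ) fun u _ =>
      norm_nonneg (M.map φ v u)
    have a2 := Finset.sum_sq_le_sq_sum_of_nonneg (s := Finset.univ) fun j _ =>
      norm_nonneg ((P.map φ * G') v j)
    have a3 := l1_mul (P.map φ) g v
    have a5 : 0 ≤ ∑ u, ‖M.map φ v u‖ := by positivity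
    have a6 : 0 ≤ ∑ j, ‖(P.map φ * G') v j‖ := by positivity
    have a7 := pow_le_pow_left₀ (add_nonneg a5 a6) ((add_le_add_right a3 _).trans (hρ v)) 2
    nlinarith [mul_nonneg a5 a6]
  have b0 : ∀ v, 0 ≤ B φ v := fun v => le_trans (by positivity) (hρ v)
  refine (Circ3.had _ (Sum.elim (Sum.elim (B φ) (B φ)) fun _ => 2) ?_ ?_).trans ?_
  · rintro ((v | v) | i) <;> simp [b0]
  · rintro ((v | v) | i)
    · simpa [Fintype.sum_sum_type] using r1 g₁ v
    · simpa [Fintype.sum_sum_type] using r1 g₂ v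
    · have a1 := L1.sq (fun i => (l1_mul F₁ q1 i).trans (f₁ i)) i
      have a2 := L1.sq (fun i => (l1_mul F₂ q1 i).trans (f₂ i)) i
      have a3 := hZ i
      simp only [Fintype.sum_sum_type, fromBlocks_apply₂₁, fromBlocks_apply₂₂, Sum.elim_inr,
        fromCols_apply_inl, fromCols_apply_inr]
      linarith
  · simp [Fintype.prod_sum_type, sq]

theorem Two.one (h : Two Φ β) (σ : K →+* ℂ) : 1 ≤ β σ := by
  simpa using h σ (Fin 0) 0 0 0 0 0 (fun i => i.elim0) (fun i => i.elim0) (fun i => by simp)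
    (fun i => by simp) fun i => i.elim0

theorem Two.chain (h : Two Φ β) (σ : K →+* ℂ) {F₁ : Matrix ι κ ℂ} {G₁ : Matrix κ μ ℂ}
    {F₂ : Matrix μ κ ℂ} {G₂ : Matrix κ ι ℂ} (T : Matrix ι ι ℂ) (f₁ : L1 F₁) (f₂ : L1 F₂)
    (g₁ : L1 G₁) (g₂ : L1 G₂) (hT : ∀ i, ∑ j, ‖T i j‖ ^ 2 ≤ 1) :
    ‖(F₂ * Φ.map σ * G₂ * T * (F₁ * Φ.map σ * G₁)).det‖ ≤
      β σ * 2 ^ (2 * Fintype.card ι + Fintype.card μ) := by
  have h1 := schur' (M := fromBlocks 1 0 (-T) 1) (N := fromBlocks 1 0 T 1)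
    (by simp [fromBlocks_multiply]) (fromRows (F₁ * Φ.map σ * G₁) 0)
    (fromCols 0 (F₂ * Φ.map σ * G₂)) 0
  rw [det_fromBlocks_zero₁₂, fromCols_mul_fromBlocks, fromCols_mul_fromRows] at h1
  simp only [det_one, one_mul, Matrix.mul_zero, Matrix.zero_mul, add_zero, zero_add] at h1
  have h2 := h σ ((ι ⊕ ι) ⊕ μ) (fromRows (fromRows (-F₁) 0) 0) (fromRows 0 F₂) (fromCols 0 G₁)
    (fromCols (fromCols 0 G₂) 0) (fromBlocks (fromBlocks 1 0 (-T) 1) 0 0 0) ?_ ?_ ?_ ?_ ?_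
  · rw [h1]
    convert h2 using 3
    · ext ((i | i) | i) ((j | j) | j) <;>
        simp [fromRows_mul, mul_fromCols]
    · simp [two_mul]
  · rintro ((i | i) | i)
    exacts [by simpa using f₁ i, by simp, by simp]
  · rintro (i | i)
    exacts [by simp, by simpa using f₂ i]
  · intro i; simpa [Fintype.sum_sum_type] using g₁ i
  · intro i; simpa [Fintype.sum_sum_type] using g₂ i
  · rintro ((i | i) | i)
    · simp [Fintype.sum_sum_type, one_apply, apply_ite]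
    · have := hT i
      simp [Fintype.sum_sum_type, one_apply, apply_ite]
      linarith
    · simp

/-- `Φ` is realized over each local ring `O v` with determinant `c v`, the ring `O v₀` is a
valuation ring, and the product formula holds in the form needed: `s` is the total size. -/
structure Ctx {V : Type} (O : V → Subring K) (c : ∀ v, O v) (v₀ : V) (P : ℕ) (Φ : Matrix κ κ K)
    (β : (K →+* ℂ) → ℝ) (s : ℝ) : Prop where
  re : ∀ v, Re (O v).subtype (c v) Φ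
  dich : ∀ x : K, x ∈ O v₀ ∨ x⁻¹ ∈ O v₀
  two : Two Φ β
  pf : ∀ (y : K) (e : ℕ) (x B : ℝ), y ≠ 0 → (∀ v, (c v : K) ^ 2 * y ∈ O v) →
    (∃ z : O v₀, (c v₀ : K) ^ 2 * y = P ^ e * z) → 0 ≤ x → 0 ≤ B →
    (∀ σ : K →+* ℂ, x * ‖σ y‖ ≤ β σ * B) → x * P ^ e ≤ s * B

end Pool.Agent.MP_5daf37_lc.DH
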