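import Pool.Agent.MP_5daf37_lc.DH.A

/-!
Two one-sided rank steps and the diagonal plus low rank form.
-/

open Matrix Polynomial

namespace Pool.Agent.MP_5daf37_lc.DH
open FC HG

theorem root {l : Type} [Fintype l] [DecidableEq l] (M : Matrix l l ℂ[X]) (c : ℂ) (m : ℕ)
    (h : (M.map (evalRingHom c)).rank + m ≤ Fintype.card l) : ∃ w : ℂ, ‖w‖ = 1 ∧
      ‖(M.map (evalRingHom 0)).det‖ ≤ ‖c‖ ^ m * ‖(M.map (evalRingHom w)).det‖ := by
  obtain ⟨χ, hχ⟩ := ord ℂ ℂ[X] l C (X - C c) _ M m (fun i j => X_sub_C_dvd_sub_C_eval) h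
  obtain ⟨w, hw, h2⟩ := sup1 M.det
  refine ⟨w, hw, ?_⟩
  have e : ∀ t : ℂ, (M.map (evalRingHom t)).det = M.det.eval t := fun t => by
    rw [← RingHom.mapMatrix_apply, ← RingHom.map_det]; rfl
  have h3 := norm_coeff_le_choose_mul_mahlerMeasure_of_one_le_mahlerMeasure 0 χ ((X - C c) ^ m)
    (one_le_mahlerMeasure_of_one_le_norm_leadingCoeff (by
      rw [((monic_X_sub_C c).pow m).leadingCoeff, norm_one]))
  rw [mul_comm χ, ← hχ, Nat.choose_zero_right, Nat.cast_one, one_mul] at h3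
  rw [e, e]
  refine le_trans (le_of_eq ?_) (mul_le_mul_of_nonneg_left (h3.trans h2) (by positivity))
  rw [hχ]
  simp [coeff_zero_eq_eval_zero]

variable {K 𝓥 : Type} [Field K] {O : 𝓥 → Subring K} {d : ∀ v, O v} {v₀ : 𝓥} {P : ℕ}
  {β : (K →+* ℂ) → ℝ} {s : ℝ} {ι ε : Type} [Fintype ι] [DecidableEq ι] [Fintype ε] [DecidableEq ε]

theorem rank_map {K' a b : Type} [Field K'] [Fintype a] [Fintype b] (φ : K →+* K')
    (M : Matrix a b K) : (M.map φ).rank = M.rank :=
  le_antisymm (by simpa using rank_spec (RingHom.id K) Function.injective_id φ M)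
    (by simpa using rank_spec φ φ.injective (RingHom.id K) M)

theorem cut {Φ : Matrix ε ε K} (h : Ctx O d v₀ P Φ β s) (S S' : Finset ε) (v : 𝓥) :
    Re (O v).subtype (d v) (mk K S * Φ * mk K S') := by
  simpa using ((reMk (f := (O v).subtype) S).mul (h.re v)).mul (reMk S')

theorem sq_mem {O : Subring K} {d : O} {A : Matrix ι ι K} (h : Re O.subtype d A) :
    (d : K) ^ 2 * A.det ∈ O := by
  obtain ⟨z, hz⟩ := h.det
  rw [sq, mul_assoc]
  exact O.mul_mem d.2 (hz ▸ z.2 : O.subtype d * A.det ∈ O)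

theorem Two.minor {Φ : Matrix ε ε K} (h : Two Φ β) (σ : K →+* ℂ) (S S' : Finset ε)
    {x y : ι → ε} (hy : Function.Injective y) (D : ι → ℂ) (hD : ∀ i, ‖D i‖ ≤ 1) (Z : Matrix ι ι ℂ)
    (hZ : ∀ i, ∑ j, ‖Z i j‖ ^ 2 ≤ 2) :
    ‖(Z + diagonal D * ((mk K S * Φ * mk K S').submatrix x y).map σ).det‖ ≤
      β σ * 2 ^ Fintype.card ε := by
  have h3 := h σ ι (diagonal D * (mk ℂ S).submatrix x id) 0 _ 0 Z
    (fun i => (l1_mul _ ((L1.mk S).sub x Function.injective_id) i).trans (by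
      rw [Finset.sum_eq_single i (fun j _ h => by simp [h.symm]) (by simp)]
      simpa using hD i))
    (fun i => by simp) ((L1.mk S').sub id hy) (fun i => by simp) hZ
  refine le_trans (le_of_eq ?_) (h3.trans (mul_le_mul_of_nonneg_left
    (pow_le_pow_right₀ one_le_two (Fintype.card_le_of_injective y hy))
    (zero_le_one.trans (h.one σ))))
  rw [Matrix.mul_zero, add_zero, ← submatrix_map, Matrix.map_mul, Matrix.map_mul, mk_map, mk_map,
    Matrix.mul_assoc (diagonal D), Matrix.mul_assoc (diagonal D)]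
  rfl

theorem kill {Φ : Matrix ε ε K} (hΦ : Ctx O d v₀ P Φ β s) (S S' : Finset ε)
    {Z : Matrix ε ε K} (hZ : ∀ i j, Z i j ∈ O v₀) {c a μ : ℕ}
    (h : (mk K S * Φ * mk K S' - (P : K) ^ c • Z).rank ≤ a)
    (hμ : s * 2 ^ Fintype.card ε < P ^ (c * (μ + 1))) :
    (mk K S * Φ * mk K S').rank ≤ a + μ := by
  by_contra h0
  obtain ⟨x, y, hy, h1⟩ := exists_minor (Nat.succ_le_of_lt (not_le.1 h0))
  obtain ⟨z, hz⟩ := div (O v₀).subtype_injective ((cut hΦ S S' v₀).sub x y) ((reInt hZ).sub x y)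
    (P ^ c) (μ + 1) (by
      have := (rank_submatrix_le _ x y).trans h
      rw [Fintype.card_fin, map_pow, map_natCast]
      exact (Nat.add_le_add_right this _).trans (by omega))
  refine absurd (hΦ.pf _ (c * (μ + 1)) 1 (2 ^ Fintype.card ε) h1 (fun v => sq_mem ((cut hΦ S S' v).sub x y))
    ⟨d v₀ * z, ?_⟩ zero_le_one (by positivity) fun σ => ?_) (by rwa [one_mul, not_le])
  · simp only [mul_one, map_mul, map_pow, map_natCast, Subring.coe_subtype] at hz
    rw [sq, mul_assoc, hz, pow_mul, Subring.coe_mul]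
    ring
  · have := hΦ.two.minor σ S S' (x := x) hy 1 (by simp) 0 (by simp)
    rwa [zero_add, diagonal_one', Matrix.one_mul, ← RingHom.mapMatrix_apply,
      ← RingHom.map_det, ← one_mul ‖_‖] at this

variable {A H : Matrix ι ι K} {U : Matrix ι ε K} {V : Matrix ε ι K} {N : Matrix ε ε K}

theorem arch (hΦ : Ctx O d v₀ P (fromBlocks A U V N) β s) {ρ : ℝ} (hρ : 0 < ρ)
    (h1 : ∀ (σ : K →+* ℂ) i, ∑ j, ‖H.map σ i j‖ ^ 2 ≤ ρ ^ 2)
    (h2 : ∀ σ : K →+* ℂ, ρ ^ Fintype.card ι ≤ ‖(H.map σ).det‖) (I J : Finset ε) {a μ : ℕ}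
    (h : (fromBlocks A (U * mk K J) (mk K I * V) (mk K I * N * mk K J) -
      fromBlocks H 0 0 0).rank ≤ a)
    (hμ : s * 2 ^ (Fintype.card ι + Fintype.card ε) < ρ ^ (μ + 1)) :
    Fintype.card ι + (mk K I * N * mk K J).rank ≤ a + μ := by
  by_contra h0
  obtain ⟨x, y, hy, h3⟩ := exists_minor (le_refl (mk K I * N * mk K J).rank)
  have h4 := cut hΦ (Finset.univ.disjSum I) (Finset.univ.disjSum J)
  have h5 := fun σ => hΦ.two.minor σ (Finset.univ.disjSum I) (Finset.univ.disjSum J)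
    (x := Sum.map id x) (Function.injective_id.sumMap hy)
  rw [mk_blocks] at h4
  simp only [mk_blocks] at h5
  generalize mk K I * N * mk K J = N' at *
  generalize U * mk K J = U' at *
  generalize mk K I * V = V' at *
  have hz := fun v => sq_mem ((h4 v).sub (Sum.inr ∘ x) (Sum.inr ∘ y))
  refine absurd (hΦ.pf _ 0 (ρ ^ (μ + 1)) (2 ^ (Fintype.card ι + Fintype.card ε)) h3 hz
    ⟨⟨_, hz v₀⟩, by rw [pow_zero, one_mul]; rfl⟩ (by positivity) (by positivity) fun σ => ?_) (by rwa [pow_zero, mul_one, not_le])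
  rw [RingHom.map_det, RingHom.mapMatrix_apply]
  let Ψ := ((fromBlocks A U' V' N').submatrix (Sum.map id x) (Sum.map id y)).map σ
  let Z : Matrix (ι ⊕ Fin N'.rank) (ι ⊕ Fin N'.rank) ℂ :=
    fromBlocks (-(ρ : ℂ)⁻¹ • H.map σ) 0 0 0
  have e1 : ∀ t : ℂ, (Z.map C + diagonal (Sum.elim (fun _ => X) fun _ => 1) * Ψ.map C).map
      (evalRingHom t) = Z + diagonal (Sum.elim (fun _ => t) fun _ => 1) * Ψ := fun t => by
    ext (i | i) j <;> simp
    ring
  obtain ⟨w, hw, h6⟩ := root (Z.map C + diagonal (Sum.elim (fun _ => X) fun _ => 1) * Ψ.map C)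
    (ρ : ℂ)⁻¹ (μ + 1) (by
      have a1 := (rank_mul_le_right (diagonal (Sum.elim (fun _ => (ρ : ℂ)⁻¹) fun _ => 1)) _).trans
        ((rank_map σ _).trans_le ((rank_submatrix_le _ (Sum.map id x) (Sum.map id y)).trans h))
      rw [e1, Fintype.card_sum, Fintype.card_fin]
      refine (Nat.add_le_add_right (le_of_eq_of_le (congrArg rank ?_) a1) _).trans (by omega)
      ext (i | i) (j | j) <;> simp [Z, Ψ]
      ring)
  have h7 := h5 σ (Sum.elim (fun _ => w) fun _ => 1) (by rintro (i | i) <;> simp [hw]) Z (by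
    rintro (i | i)
    · have := h1 σ i
      simp only [Z, Fintype.sum_sum_type, fromBlocks_apply₁₁, fromBlocks_apply₁₂, Matrix.smul_apply,
        norm_smul, norm_neg, norm_inv, Complex.norm_real, Real.norm_of_nonneg hρ.le, mul_pow,
        ← Finset.mul_sum, inv_pow]
      simpa using (inv_mul_le_one_of_le₀ this (by positivity)).trans one_le_two
    · simp [Z, Fintype.sum_sum_type])
  have e2 : Z + diagonal (Sum.elim (fun _ => (0 : ℂ)) fun _ => 1) * Ψ =
      fromBlocks (-(ρ : ℂ)⁻¹ • H.map σ) 0 ((V'.submatrix x id).map σ)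
        ((N'.submatrix x y).map σ) := by
    ext (i | i) (j | j) <;> simp [Z, Ψ]
  rw [e1, e1, e2, det_fromBlocks_zero₁₂, det_smul, norm_mul, norm_mul, norm_pow, norm_neg, norm_inv,
    Complex.norm_real, Real.norm_of_nonneg hρ.le, inv_pow, inv_pow] at h6
  rw [Fintype.card_sum] at h7
  have h8 := (one_le_inv_mul₀ (by positivity)).2 (h2 σ)
  have h9 := ((le_mul_of_one_le_left (norm_nonneg _) h8).trans h6)
  rw [le_inv_mul_iff₀ (by positivity)] at h9
  exact h9.trans h7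

theorem tri {a b c e : Type} [Fintype a] [Fintype b] [Fintype c] [Fintype e] (A : Matrix a b K)
    (B : Matrix a e K) (D : Matrix c e K) : A.rank + D.rank ≤ (fromBlocks A B 0 D).rank := by
  obtain ⟨x, y, -, h1⟩ := exists_minor (le_refl A.rank)
  obtain ⟨x', y', -, h2⟩ := exists_minor (le_refl D.rank)
  have e : (fromBlocks A B 0 D).submatrix (Sum.map x x') (Sum.map y y') =
      fromBlocks (A.submatrix x y) (B.submatrix x y') 0 (D.submatrix x' y') := by
    ext (i | i) (j | j) <;> rfl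
  have h3 := rank_submatrix_le (fromBlocks A B 0 D) (Sum.map x x') (Sum.map y y')
  rw [e, rank_of_det_ne_zero (by rw [det_fromBlocks_zero₂₁]; exact mul_ne_zero h1 h2)] at h3
  simpa using h3

theorem three (B₁ B₂ : Matrix ι ι K) (U : Matrix ι ε K) (V : Matrix ε ι K) :
    U.rank + ((fromBlocks (B₁ - B₂) U V 0).rank + V.rank) ≤
      (fromBlocks B₁ U V 0).rank + (fromBlocks B₂ U V 0).rank := by
  have h1 := (Nat.add_le_add_left (tri (fromBlocks (B₁ - B₂) U V 0) (fromRows (-B₂) 0) V) _).trans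
    (tri U (fromCols (fromCols B₂ 0) B₂) _)
  have h2 := rank_add_le'
    (fromRows (0 : Matrix ι (ι ⊕ ε) K) (fromRows (1 : Matrix (ι ⊕ ε) (ι ⊕ ε) K)
      (fromCols (0 : Matrix ε ι K) (-1))) * fromBlocks B₁ U V 0 *
      fromCols (fromRows (0 : Matrix ι ε K) 1)
        (fromCols (1 : Matrix (ι ⊕ ε) (ι ⊕ ε) K) (0 : Matrix (ι ⊕ ε) ι K)))
    (fromRows (fromCols (1 : Matrix ι ι K) (0 : Matrix ι ε K)) (fromRows
      (fromBlocks (-1 : Matrix ι ι K) 0 0 (0 : Matrix ε ε K)) (fromCols (0 : Matrix ε ι K) 1)) *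
      fromBlocks B₂ U V 0 * fromCols (fromRows (0 : Matrix ι ε K) 1) (fromCols
        (fromBlocks (1 : Matrix ι ι K) 0 0 (0 : Matrix ε ε K)) (fromRows 1 (0 : Matrix ε ι K))))
  refine h1.trans (le_of_eq_of_le (congrArg rank ?_) (h2.trans (add_le_add
    ((rank_mul_le_left _ _).trans (rank_mul_le_right _ _))
    ((rank_mul_le_left _ _).trans (rank_mul_le_right _ _)))))
  simp only [fromRows_mul, mul_fromCols, fromCols_mul_fromBlocks, fromBlocks_multiply,
    fromCols_mul_fromRows, fromBlocks_mul_fromRows, Matrix.one_mul, Matrix.mul_one]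
  ext (i | (i | i) | i) (j | (j | j) | j) <;> simp [sub_eq_add_neg]

theorem corner (R : Matrix ι ι K) (N : Matrix ε ε K) :
    (fromBlocks R 0 0 (0 : Matrix ε ε K)).rank ≤ R.rank ∧
      (fromBlocks (0 : Matrix ι ι K) 0 0 N).rank ≤ N.rank := by
  constructor
  · refine le_of_eq_of_le (congrArg rank ?_) ((rank_mul_le_left
      (fromRows 1 (0 : Matrix ε ι K) * R) (fromCols 1 (0 : Matrix ι ε K))).trans
      (rank_mul_le_right _ _))
    rw [fromRows_mul, fromRows_mul_fromCols]; simp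
  · refine le_of_eq_of_le (congrArg rank ?_) ((rank_mul_le_left
      (fromRows (0 : Matrix ι ε K) 1 * N) (fromCols (0 : Matrix ε ι K) 1)).trans
      (rank_mul_le_right _ _))
    rw [fromRows_mul, fromRows_mul_fromCols]; simp

theorem stepB (hΦ : Ctx O d v₀ P (fromBlocks A U V N) β s) {ρ : ℝ} (hρ : 0 < ρ)
    (g1 : ∀ (σ : K →+* ℂ) i, ∑ j, ‖H.map σ i j‖ ^ 2 ≤ ρ ^ 2)
    (g2 : ∀ σ : K →+* ℂ, ρ ^ Fintype.card ι ≤ ‖(H.map σ).det‖) {G R₀ : Matrix ι ι K} {ν : K}
    (hν : ν ≠ 0) (hG : H * G = ν • (1 : Matrix ι ι K)) {H₂ : Matrix ι ι K} {c μ μ' κ : ℕ}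
    (hZ : ∀ i j, H₂ i j ∈ O v₀) (hH : H = R₀ + (P : K) ^ c • H₂)
    {F : Type} [Field F] (φ : K →+* F) {y : ε → F}
    {V' : Matrix ε ι F} {U' : Matrix ι ε F} (h1 : H.map φ = A.map φ + U.map φ * diagonal y * V')
    (h2 : V' = V.map φ + N.map φ * diagonal y * V')
    (h3 : H.map φ = A.map φ + U' * diagonal y * V.map φ)
    (hμ : s * 2 ^ (Fintype.card ι + Fintype.card ε) < ρ ^ (μ + 1))
    (hμ' : s * 2 ^ (Fintype.card ι + Fintype.card ε) < P ^ (c * (μ' + 1)))
    (hκ : 5 * Fintype.card ε + 4 * μ + R₀.rank + μ' ≤ κ + 5 * Fintype.card ι) :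
    ∃ (S : Finset ε) (Δ : ε → K) (R : Matrix ε ε K), R.rank ≤ κ ∧
      mk K S * (V * G * U) * mk K S = diagonal Δ + R ∧
      Fintype.card ι ≤ (mk K S * (V * G * U) * mk K S).rank + 2 * μ + 4 * κ := by
  have hG' : H * (ν⁻¹ • G) = 1 := by rw [Matrix.mul_smul, hG, smul_smul, inv_mul_cancel₀ hν, one_smul]
  have hs : ∀ {a b : Type} [Fintype b] (M : Matrix a b K), (ν⁻¹ • M).rank = M.rank :=
    fun M => rank_smul_of_mem_nonZeroDivisors M (mem_nonZeroDivisors_of_ne_zero (inv_ne_zero hν))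
  have tr : ∀ I J : Finset ε, (fromBlocks A (U * mk K J) (mk K I * V) (mk K I * N * mk K J) -
      fromBlocks H 0 0 0).rank = (fromBlocks (A.map φ) (U.map φ * mk F J) (mk F I * V.map φ)
        (mk F I * N.map φ * mk F J) - fromBlocks (H.map φ) 0 0 0).rank := fun I J => by
    rw [← rank_map φ, Matrix.map_sub _ (map_sub φ), fromBlocks_map, fromBlocks_map]
    simp only [Matrix.map_mul, mk_map, Matrix.map_zero _ (map_zero φ)]
  have k1 := arch hΦ hρ g1 g2 ∅ Finset.univ (a := U.rank) ?_ hμ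
  have k2 := arch hΦ hρ g1 g2 Finset.univ ∅ (a := V.rank) ?_ hμ
  · obtain ⟨S, Δ, R, r1, r2, r3⟩ := dlr (V * G * U) κ fun I => by
      have s1 := (tr I Iᶜ).trans_le (start h1 h2 I)
      have s2 := arch hΦ hρ g1 g2 I Iᶜ s1 hμ
      have s3 := kill hΦ (Finset.univ.disjSum I) (Finset.univ.disjSum Iᶜ)
        (Z := fromBlocks H₂ 0 0 0) (by rintro (i | i) (j | j) <;> simp [hZ]) (c := c) (a := Fintype.card ε + R₀.rank) (μ := μ') (by
          refine le_of_eq_of_le (congrArg rank ?_) ((rank_add_le' _ _).trans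
            (add_le_add s1 (corner R₀ N).1))
          rw [mk_blocks, hH]
          ext (i | i) (j | j) <;> simp
          ring) (by rwa [Fintype.card_sum])
      rw [mk_blocks] at s3
      have s4 := rank_mul_mk U Iᶜ
      have s5 := rank_mk_mul V I
      have s6 := block hG' (U * mk K Iᶜ) (mk K I * V) 0
      have s7 := three (A - H) A (U * mk K Iᶜ) (mk K I * V)
      have s8 := Finset.card_add_card_compl Iᶜ
      rw [zero_add, Matrix.mul_smul, Matrix.smul_mul, hs] at s6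
      rw [sub_sub_cancel_left] at s7
      have e : mk K I * V * G * (U * mk K Iᶜ) = mk K I * (V * G * U) * mk K Iᶜ := by
        simp only [Matrix.mul_assoc]
      rw [e] at s6
      generalize mk K I * N * mk K Iᶜ = N' at *
      generalize U * mk K Iᶜ = U₁ at *
      generalize mk K I * V = V₁ at *
      have c2 := (corner A N').2
      have t1 := rank_sub_le' (fromBlocks A U₁ V₁ N') (fromBlocks 0 0 0 N')
      have t2 := rank_sub_le' (fromBlocks A U₁ V₁ N' - fromBlocks H 0 0 0) (fromBlocks 0 0 0 N')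
      rw [show fromBlocks A U₁ V₁ N' - fromBlocks 0 0 0 N' = fromBlocks A U₁ V₁ 0 by
        ext (i | i) (j | j) <;> simp] at t1
      rw [show fromBlocks A U₁ V₁ N' - fromBlocks H 0 0 0 - fromBlocks 0 0 0 N' =
        fromBlocks (A - H) U₁ V₁ 0 by ext (i | i) (j | j) <;> simp] at t2
      omega
    refine ⟨S, Δ, R, r2, r3, ?_⟩
    have a1 := sylv (V * G) U
    have a2 := sylv V G
    have a3 := rank_of_det_ne_zero (isUnit_det_of_left_inverse hG').ne_zero
    have a4 := rank_mk_mul (V * G * U) S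
    have a5 := rank_mul_mk (mk K S * (V * G * U)) S
    rw [hs] at a3
    omega
  · rw [tr, ← rank_map φ V]
    refine le_of_eq_of_le (congrArg rank ?_) ((rank_mul_le_left
      (fromRows (-(U' * diagonal y)) 1 * V.map φ) (fromCols 1 (0 : Matrix ι ε F))).trans
      (rank_mul_le_right _ _))
    rw [h3, fromRows_mul, fromRows_mul_fromCols, sub_eq_add_neg, fromBlocks_neg, fromBlocks_add]
    simp [mk_empty, mk_univ]
  · rw [tr, ← rank_map φ U]
    refine le_of_eq_of_le (congrArg rank ?_) ((rank_mul_le_left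
      (fromRows 1 (0 : Matrix ε ι F) * U.map φ) (fromCols (-(diagonal y * V')) 1)).trans
      (rank_mul_le_right _ _))
    rw [h1, fromRows_mul, fromRows_mul_fromCols, sub_eq_add_neg, fromBlocks_neg, fromBlocks_add]
    simp [mk_empty, mk_univ, Matrix.mul_assoc]

end Pool.Agent.MP_5daf37_lc.DH
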