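import Pool.Agent.MP_5daf37_lc.DH.B

/-!
The valuations of the diagonal part: few are low and few are high; the numerical assembly.
-/

open Matrix

namespace Pool.Agent.MP_5daf37_lc.DH
open FC HG

variable {K 𝓥 : Type} [Field K] {O : 𝓥 → Subring K} {d : ∀ v, O v} {v₀ : 𝓥} {P θ : ℕ}
  {β : (K →+* ℂ) → ℝ} {s : ℝ} {ι ε : Type} [Fintype ι] [DecidableEq ι] [Fintype ε] [DecidableEq ε]
  {A G : Matrix ι ι K} {U : Matrix ι ε K} {V : Matrix ε ι K} {N : Matrix ε ε K}
  {S L : Finset ε} {Δ : ε → K} {R : Matrix ε ε K}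

omit [Fintype ι] [DecidableEq ι] in
theorem reDiag {O : Subring K} {a : ε → K} (h : ∀ e, a e ∈ O) : Re O.subtype 1 (diagonal a) :=
  reInt fun i j => by
    rw [diagonal_apply]
    split_ifs
    exacts [h i, O.zero_mem]

omit [DecidableEq ι] [DecidableEq ε] in
theorem reV (hΦ : Ctx O d v₀ P (fromBlocks A U V N) β s) (v : 𝓥) : Re (O v).subtype (d v) V :=
  (hΦ.re v).sub Sum.inr Sum.inl

omit [DecidableEq ι] [DecidableEq ε] in
theorem reU (hΦ : Ctx O d v₀ P (fromBlocks A U V N) β s) (v : 𝓥) : Re (O v).subtype (d v) U :=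
  (hΦ.re v).sub Sum.inl Sum.inr

theorem low (hP : (P : K) ≠ 0) (hΦ : Ctx O d v₀ P (fromBlocks A U V N) β s)
    {R₂ H₂ : Matrix ι ι K} {w : ℕ} (hZ : ∀ i j, H₂ i j ∈ O v₀)
    (hG : G = R₂ + (P : K) ^ (θ + w) • H₂) (hQ : mk K S * (V * G * U) * mk K S = diagonal Δ + R)
    (hL : ∀ e ∈ L, Δ e ≠ 0 ∧ (Δ e / P ^ θ)⁻¹ ∈ O v₀) (μ : ℕ)
    (hμ : R₂.rank + R.rank + μ ≤ L.card) : (P : ℝ) ^ (w * μ) ≤ s := by
  have p0 : (P : K) ^ θ ≠ 0 := pow_ne_zero _ hP
  have h1 := (reDiag fun e : L => (hL e e.2).2).mul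
    (((reMk S).mul (((reV hΦ v₀).mul (reInt hZ)).mul (reU hΦ v₀))).mul (reMk S) |>.sub
      (Subtype.val : L → ε) (Subtype.val : L → ε))
  obtain ⟨z, hz⟩ := div (O v₀).subtype_injective (reMk Finset.univ) h1 (P ^ w) μ (by
    have a1 := rank_mul_le_right (diagonal fun e : L => (Δ e)⁻¹)
      ((mk K S * (V * R₂ * U) * mk K S - R).submatrix (Subtype.val : L → ε) (Subtype.val : L → ε))
    have a2 := rank_submatrix_le (mk K S * (V * R₂ * U) * mk K S - R) (Subtype.val : L → ε)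
      (Subtype.val : L → ε)
    have a3 := rank_sub_le' (mk K S * (V * R₂ * U) * mk K S) R
    have a4 : (mk K S * (V * R₂ * U) * mk K S).rank ≤ R₂.rank :=
      (rank_mul_le_left _ _).trans ((rank_mul_le_right _ _).trans ((rank_mul_le_left _ _).trans
        (rank_mul_le_right _ _)))
    have e2 : mk K S * (V * R₂ * U) * mk K S - R = diagonal Δ -
        (P : K) ^ (θ + w) • (mk K S * (V * H₂ * U) * mk K S) := by
      rw [eq_sub_iff_add_eq, sub_add_eq_add_sub, sub_eq_iff_eq_add, ← hQ, hG]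
      simp only [Matrix.mul_add, Matrix.add_mul, Matrix.mul_smul, Matrix.smul_mul]
    rw [e2] at a1 a2 a3
    rw [Fintype.card_coe]
    refine le_trans (Nat.add_le_add_right (le_of_eq_of_le (congrArg rank ?_) (a1.trans a2)) _)
      (by omega)
    ext i j
    have b2 := (hL i i.2).1
    generalize mk K S * (V * H₂ * U) * mk K S = X
    simp only [mk_univ, Matrix.sub_apply, Matrix.smul_apply, diagonal_mul, submatrix_apply,
      one_apply, diagonal_apply, Subtype.val_inj, smul_eq_mul, map_pow, map_natCast]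
    split_ifs <;> field_simp <;> ring)
  rw [mk_univ, det_one] at hz
  have h2 := hΦ.pf 1 (w * μ) 1 1 one_ne_zero (fun v => by
    simpa using (O v).pow_mem (d v).2 2) ⟨z, by simpa [sq, pow_mul] using hz⟩
    zero_le_one zero_le_one fun σ => by simpa using hΦ.two.one σ
  simpa using h2

theorem high (hP : (P : K) ≠ 0) (hΦ : Ctx O d v₀ P (fromBlocks A U V N) β s)
    (hI : ∀ v i j, ((P : K) • G) i j ∈ O v) {ρ : ℝ} (hρ : 0 < ρ)
    (h1 : ∀ (σ : K →+* ℂ) i, ∑ j, ‖G.map σ i j‖ ^ 2 ≤ ρ ^ 2)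
    (hQ : mk K S * (V * G * U) * mk K S = diagonal Δ + R)
    (hL : ∀ e ∉ L, Δ e / P ^ θ ∈ O v₀) (r μ : ℕ) (hμ : R.rank + μ ≤ r)
    (hr : r + L.card ≤ (mk K S * (V * G * U) * mk K S).rank) :
    (P : ℝ) ^ (θ * μ) ≤ P ^ r * ρ ^ r * (s * 2 ^ (2 * Fintype.card ι + r)) := by
  have p0 : (P : K) ^ θ ≠ 0 := pow_ne_zero _ hP
  have a1 := rank_mul_mk (mk K S * (V * G * U) * mk K S) Lᶜ
  rw [compl_compl] at a1
  obtain ⟨x, y, hy, h0⟩ := exists_minor (A := mk K S * (V * G * U) * mk K S * mk K Lᶜ)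
    (r := r) (by omega)
  have e1 : mk K S * V * G * (U * mk K (S ∩ Lᶜ)) = mk K S * (V * G * U) * mk K S * mk K Lᶜ := by
    simp only [← mk_mul, Matrix.mul_assoc]
  have h2 : ∀ v, Re (O v).subtype (d v ^ 2)
      (((P : K) • (mk K S * (V * G * U) * mk K S * mk K Lᶜ)).submatrix x y) := fun v => by
    have := ((((reMk S).mul (reV hΦ v)).mul (reInt (hI v))).mul
      ((reU hΦ v).mul (reMk (S ∩ Lᶜ)))).sub x y
    rwa [one_mul, mul_one, ← sq, Matrix.mul_smul, Matrix.smul_mul, e1] at this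
  obtain ⟨z, hz⟩ := div (O v₀).subtype_injective (h2 v₀) ((reDiag
    (a := fun e => if e ∈ L then 0 else P * (Δ e / P ^ θ)) fun e => by
      split_ifs with h
      exacts [(O v₀).zero_mem, (O v₀).mul_mem (natCast_mem _ P) (hL e h)]).sub x y) (P ^ θ) μ (by
      have a2 := (rank_submatrix_le ((P : K) • (1 : Matrix ε ε K) * R * mk K Lᶜ) x y).trans
        ((rank_mul_le_left _ _).trans (rank_mul_le_right _ _))
      rw [Fintype.card_fin]
      refine le_trans (Nat.add_le_add_right (le_of_eq_of_le (congrArg rank ?_) a2) _) hμ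
      rw [hQ]
      ext i l
      simp only [mk, Matrix.sub_apply, Matrix.smul_apply, submatrix_apply, mul_diagonal,
        Matrix.add_apply, diagonal_apply, smul_eq_mul, Finset.mem_compl, map_pow, map_natCast,
        Matrix.smul_mul, Matrix.one_mul]
      by_cases h : x i = y l
      · rw [h]
        by_cases h' : y l ∈ L
        · simp [h']
        · simp only [h', if_true, if_false, not_false_eq_true]
          field_simp
          ring
      · simp [h])
  have e0 : (((P : K) • (mk K S * (V * G * U) * mk K S * mk K Lᶜ)).submatrix x y).det =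
      P ^ r * ((mk K S * (V * G * U) * mk K S * mk K Lᶜ).submatrix x y).det := by
    rw [submatrix_smul, Pi.smul_apply, Pi.smul_apply, det_smul, Fintype.card_fin]
  refine le_of_eq_of_le (one_mul _).symm (le_of_le_of_eq (hΦ.pf _ (θ * μ) 1
    (P ^ r * ρ ^ r * 2 ^ (2 * Fintype.card ι + r)) (e0 ▸ mul_ne_zero (pow_ne_zero r hP) h0)
    (fun v => ?_) ⟨z, by simpa [pow_mul] using hz⟩ zero_le_one (by positivity) fun σ => ?_)
    (by ring))
  · obtain ⟨z₀, hz₀⟩ := (h2 v).det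
    have h3 : (O v).subtype z₀ ∈ O v := z₀.2
    rw [hz₀] at h3
    exact h3
  have h5 := hΦ.two.chain σ ((ρ : ℂ)⁻¹ • G.map σ)
    ((L1.mk (Finset.univ.disjSum S)).sub Sum.inl Function.injective_id)
    ((L1.mk (Finset.univ.disjSum S)).sub (Sum.inr ∘ x) Function.injective_id)
    ((L1.mk (Finset.univ.disjSum (S ∩ Lᶜ))).sub id (Sum.inr_injective.comp hy))
    ((L1.mk (Finset.univ.disjSum (S ∩ Lᶜ))).sub id Sum.inl_injective) fun i => by
      simp only [Matrix.smul_apply, norm_smul, norm_inv, Complex.norm_real,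
        Real.norm_of_nonneg hρ.le, mul_pow, ← Finset.mul_sum, inv_pow]
      exact inv_mul_le_one_of_le₀ (h1 σ i) (by positivity)
  have e2 : ∀ {a b : Type} (x : a → ι ⊕ ε) (y : b → ι ⊕ ε),
      (mk ℂ (Finset.univ.disjSum S)).submatrix x id * (fromBlocks A U V N).map σ *
        (mk ℂ (Finset.univ.disjSum (S ∩ Lᶜ))).submatrix id y =
      ((fromBlocks A (U * mk K (S ∩ Lᶜ)) (mk K S * V)
        (mk K S * N * mk K (S ∩ Lᶜ))).submatrix x y).map σ := fun x y => by
    rw [← mk_blocks, ← submatrix_map, Matrix.map_mul, Matrix.map_mul, mk_map, mk_map]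
    rfl
  rw [e2, e2, Matrix.mul_smul, Matrix.smul_mul, det_smul, ← Matrix.map_mul, ← Matrix.map_mul,
    ← RingHom.mapMatrix_apply, ← RingHom.map_det, Fintype.card_fin] at h5
  refine le_of_eq_of_le ?_ (le_of_le_of_eq (mul_le_mul_of_nonneg_left h5
    (show (0 : ℝ) ≤ P ^ r * ρ ^ r by positivity)) (by ring))
  rw [e0, ← e1]
  have e3 : (fromBlocks A (U * mk K (S ∩ Lᶜ)) (mk K S * V) (mk K S * N * mk K (S ∩ Lᶜ))).submatrix
      (Sum.inr ∘ x) Sum.inl * G * (fromBlocks A (U * mk K (S ∩ Lᶜ)) (mk K S * V)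
        (mk K S * N * mk K (S ∩ Lᶜ))).submatrix Sum.inl (Sum.inr ∘ y) =
      (mk K S * V * G * (U * mk K (S ∩ Lᶜ))).submatrix x y := rfl
  rw [e3]
  simp only [map_mul, map_pow, map_natCast, norm_mul, norm_pow, norm_inv,
    Complex.norm_natCast, Complex.norm_real, Real.norm_of_nonneg hρ.le, inv_pow]
  field_simp

/-- The elementary divisors of `H` at `P` are spread linearly over `k` levels. -/
def Spread (O : Subring K) (P k : ℕ) (H : Matrix ι ι K) : Prop :=
  ∀ c : ℕ, ∃ R Z : Matrix ι ι K, (∀ i j, Z i j ∈ O) ∧ H = R + (P : K) ^ c • Z ∧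
    k * R.rank ≤ Fintype.card ι * (c + 3)

theorem abs_bound {H : Matrix ι ι K} {k u : ℕ} (hs : 1 ≤ s) (hP : 1 < P) (hP' : (P : K) ≠ 0)
    (hΦ : Ctx O d v₀ P (fromBlocks A U V N) β s) (hG : H * G = (P : K) ^ k • (1 : Matrix ι ι K))
    (g1 : ∀ (σ : K →+* ℂ) i, ∑ j, ‖H.map σ i j‖ ^ 2 ≤ P ^ k)
    (g2 : ∀ (σ : K →+* ℂ) i, ∑ j, ‖G.map σ i j‖ ^ 2 ≤ P ^ k)
    (sH : Spread (O v₀) P k H) (sG : Spread (O v₀) P k G) (hI : ∀ v i j, ((P : K) • G) i j ∈ O v)
    {F : Type} [Field F] (φ : K →+* F) {y : ε → F}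
    {V' : Matrix ε ι F} {U' : Matrix ι ε F} (h1 : H.map φ = A.map φ + U.map φ * diagonal y * V')
    (h2 : V' = V.map φ + N.map φ * diagonal y * V')
    (h3 : H.map φ = A.map φ + U' * diagonal y * V.map φ)
    (hm : 200 * Fintype.card ε ≤ 201 * Fintype.card ι) (hu : 999 ≤ u) (hk : 1000 * u ≤ k)
    (hk' : k ≤ 1002 * u) :
    (P : ℝ) ^ (Fintype.card ι * u) ≤ (s * 2 ^ (5 * Fintype.card ι)) ^ 200 := by
  by_contra h0
  rw [not_le] at h0
  set n := Fintype.card ι with hn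
  have p1 : (1 : ℝ) < P := by exact_mod_cast hP
  have hle : ∀ e f c : ℕ, c ≤ 5 * n → (P : ℝ) ^ e ≤ P ^ f * (s * 2 ^ c) →
      200 * e < 200 * f + n * u := fun e f c hc h => by
    refine (pow_lt_pow_iff_right₀ p1).1 ?_
    rw [pow_add, pow_mul', pow_mul']
    refine (pow_le_pow_left₀ (by positivity) h 200).trans_lt ?_
    rw [mul_pow]
    refine mul_lt_mul_of_pos_left (lt_of_le_of_lt ?_ h0) (by positivity)
    gcongr
    norm_num
  have hlt : ∀ e D : ℕ, 0 < D → D ≤ 200 * e → s * 2 ^ (n + Fintype.card ε) <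
      P ^ (e * u * (n / D + 1)) := fun e D d0 hD => by
    refine lt_of_not_ge fun h => ?_
    have a1 := hle (e * u * (n / D + 1)) 0 (n + Fintype.card ε) (by omega) (by simpa using h)
    have a2 := Nat.mul_le_mul_right u (Nat.lt_mul_div_succ n d0).le
    have a3 := Nat.mul_le_mul_right ((n / D + 1) * u) hD
    nlinarith
  obtain ⟨ρ, r0, r1⟩ : ∃ ρ : ℝ, 0 < ρ ∧ (P : ℝ) ^ k = ρ ^ 2 :=
    ⟨√(P ^ k), by positivity, (Real.sq_sqrt (by positivity)).symm⟩
  have r2 : (P : ℝ) ^ (500 * u) ≤ ρ := by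
    refine (pow_le_pow_iff_left₀ (by positivity) r0.le two_ne_zero).1 ?_
    rw [← r1, ← pow_mul]
    exact pow_le_pow_right₀ p1.le (by omega)
  have r3 : ρ ≤ (P : ℝ) ^ (501 * u) := by
    refine (pow_le_pow_iff_left₀ r0.le (by positivity) two_ne_zero).1 ?_
    rw [← r1, ← pow_mul]
    exact pow_le_pow_right₀ p1.le (by omega)
  have g3 : ∀ σ : K →+* ℂ, ρ ^ n ≤ ‖(H.map σ).det‖ := fun σ => by
    have a1 := Circ3.had (G.map σ) (fun _ => ρ) (fun _ => r0.le) (r1 ▸ g2 σ)
    have a2 := congrArg (fun M => ‖σ (det M)‖) hG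
    simp only [det_mul, det_smul, det_one, mul_one, map_mul, map_pow, map_natCast, norm_mul,
      norm_pow, Complex.norm_natCast, r1] at a2
    rw [RingHom.map_det, RingHom.map_det, RingHom.mapMatrix_apply, RingHom.mapMatrix_apply,
      ← hn, sq, mul_pow] at a2
    rw [Finset.prod_const, Finset.card_univ, ← hn] at a1
    exact le_of_mul_le_mul_right (a2.ge.trans (mul_le_mul_of_nonneg_left a1 (norm_nonneg _)))
      (by positivity)
  rw [r1] at g1 g2
  obtain ⟨R₀, H₂, z1, s1, s2⟩ := sH (2 * u)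
  obtain ⟨R₂, G₂, z2, s3, s4⟩ := sG (701 * u + 20 * u)
  have s5 : 400 * R₀.rank ≤ n := by
    refine le_of_mul_le_mul_right (a := 5 * u) ?_ (by omega)
    nlinarith [Nat.mul_le_mul_right R₀.rank hk, Nat.mul_le_mul_left n hu]
  have s6 : 1000 * R₂.rank ≤ 722 * n := by
    refine le_of_mul_le_mul_right (a := u) ?_ (by omega)
    nlinarith [Nat.mul_le_mul_right R₂.rank hk, Nat.mul_le_mul_left n hu]
  have s7 : R₀.rank ≤ n / 400 := by omega
  have s8 : Fintype.card ε ≤ n + n / 200 := by omega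
  obtain ⟨S, Δ, R, q1, q2, q3⟩ := stepB (μ := n / 40000) (μ' := n / 400)
    (κ := 5 * (n / 200) + 4 * (n / 40000) + n / 400 + n / 400) hΦ r0 g1 g3
    (pow_ne_zero k hP') hG z1 s1 φ h1 h2 h3 ((hlt 500 40000 (by omega) (by omega)).trans_le (by
      rw [pow_mul]
      exact pow_le_pow_left₀ (by positivity) r2 _)) (hlt 2 400 (by omega) (by omega)) (by omega)
  classical
  let L := Finset.univ.filter fun e => Δ e / P ^ (701 * u) ∉ O v₀
  have l1 := low (L := L) hP' hΦ z2 s3 q2 fun e he => by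
    have h := (Finset.mem_filter.1 he).2
    exact ⟨fun h0 => h (by simp [h0]), (hΦ.dich _).resolve_left h⟩
  have l2 := high (L := L) hP' hΦ hI r0 g2 q2 fun e he =>
    of_not_not fun h => he (Finset.mem_filter.2 ⟨Finset.mem_univ _, h⟩)
  have l3 := rank_le_card_width (mk K S * (V * G * U) * mk K S)
  generalize (mk K S * (V * G * U) * mk K S).rank = ϱ at *
  generalize L.card = l at *
  generalize R₂.rank = T at *
  generalize R.rank = κ at *
  have n0 := hle 0 0 0 (Nat.zero_le _) (by simpa using hs)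
  have l4 : 4000 * (l - (T + κ)) < n := by
    rcases le_total l (T + κ) with h | h
    · rw [Nat.sub_eq_zero_of_le h]
      exact Nat.pos_of_mul_pos_right (by simpa using n0)
    · have a1 := hle (20 * u * (l - (T + κ))) 0 0 (Nat.zero_le _) (by simpa using l1 _ (by omega))
      refine lt_of_mul_lt_mul_right (a := u) ?_ (Nat.zero_le _)
      nlinarith
  obtain ⟨r, hr⟩ := Nat.exists_eq_add_of_le (show l + κ ≤ ϱ by omega)
  have l5 := hle _ (κ + r + 501 * u * (κ + r)) (2 * n + (κ + r)) (by omega)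
    ((l2 (κ + r) r le_rfl (by omega)).trans (by
      rw [pow_add (P : ℝ) (κ + r), pow_mul (P : ℝ) (501 * u)]
      gcongr))
  have l7 : κ + r ≤ 2 * n := by omega
  have l6 : 40000 * r < 100200 * κ + 2 * n := by
    refine lt_of_mul_lt_mul_right (a := u) ?_ (Nat.zero_le _)
    nlinarith [Nat.mul_le_mul_left n hu]
  omega

end Pool.Agent.MP_5daf37_lc.DH
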