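import Pool.Agent.MP_5daf37_lc.DH.C

/-!
The elementary divisors of the Fourier matrix of prime power order.
-/

open Finset Polynomial

namespace Pool.Agent.MP_5daf37_lc.DH

variable {A : Type} [CommRing A]

theorem gauss (η : A) (i : ℕ) :
    ∀ l : ℕ, ∏ m ∈ range l, (η ^ (m + 1) - 1) ∣ ∏ m ∈ range l, (η ^ i - η ^ m) := by
  induction i with
  | zero =>
    rintro (_ | l)
    · simp
    · rw [prod_range_succ' fun m => η ^ 0 - η ^ m]; simp
  | succ i ih =>
    rintro (_ | l)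
    · simp
    have e : ∏ m ∈ range (l + 1), (η ^ (i + 1) - η ^ m) =
        η ^ (l + 1) * ∏ m ∈ range (l + 1), (η ^ i - η ^ m) +
          η ^ l * ((∏ m ∈ range l, (η ^ i - η ^ m)) * (η ^ (l + 1) - 1)) := by
      rw [prod_range_succ', prod_range_succ]
      simp only [pow_succ' η, ← mul_sub, prod_mul_distrib, prod_const, card_range]
      ring
    rw [e]
    refine ((ih _).mul_left _).add (Dvd.dvd.mul_left ?_ _)
    rw [prod_range_succ]
    exact mul_dvd_mul_right (ih l) _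

theorem newton (η : A) (j : ℕ) : ∀ n, j < n → ∃ g : ℕ → A, ∀ x : A,
    x ^ j = ∑ l ∈ range n, (∏ m ∈ range l, (x - η ^ m)) * g l := by
  induction j with
  | zero =>
    rintro (_ | n) h
    · omega
    exact ⟨fun l => if l = 0 then 1 else 0, fun x => by simp⟩
  | succ j ih =>
    rintro (_ | n) h
    · omega
    obtain ⟨g, hg⟩ := ih n (by omega)
    refine ⟨fun l => (if l = 0 then 0 else g (l - 1)) + if l < n then η ^ l * g l else 0,
      fun x => ?_⟩
    simp only [mul_add, sum_add_distrib]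
    rw [sum_range_succ', sum_range_succ, pow_succ, hg, sum_mul, if_pos rfl, if_neg (lt_irrefl n),
      mul_zero, mul_zero, add_zero, add_zero, ← sum_add_distrib]
    refine sum_congr rfl fun l hl => ?_
    rw [if_neg l.succ_ne_zero, if_pos (mem_range.1 hl), prod_range_succ, Nat.add_sub_cancel]
    ring

variable [IsDomain A] {P k : ℕ} {η : A}

theorem assoc (hP : P.Prime) (h : IsPrimitiveRoot η (P ^ (k + 1))) :
    Associated ((η - 1) ^ (P ^ k * (P - 1))) (P : A) := by
  have := Fact.mk hP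
  have : NeZero (P ^ (k + 1)) := ⟨pow_ne_zero _ hP.ne_zero⟩
  rw [← eval_one_cyclotomic_prime_pow (R := A) (p := P) k,
    cyclotomic_eq_prod_X_sub_primitiveRoots h, eval_prod, ← Nat.totient_prime_pow_succ hP,
    ← h.card_primitiveRoots, ← prod_const]
  refine Associated.prod _ _ _ fun ξ hξ => ?_
  obtain ⟨i, -, hi, rfl⟩ := h.isPrimitiveRoot_iff.1 (isPrimitiveRoot_of_mem_primitiveRoots hξ)
  simpa using (h.associated_sub_one_pow_sub_one_of_coprime hi).neg_right

/-- The increments of the powers of `P`. -/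
def wt (P : ℕ) : ℕ → ℕ
  | 0 => 1
  | s + 1 => P ^ s * (P - 1)

theorem sum_wt (hP : 1 ≤ P) (s : ℕ) : ∑ r ∈ range (s + 1), wt P r = P ^ s := by
  induction s with
  | zero => rfl
  | succ s ih =>
    obtain ⟨Q, rfl⟩ := Nat.exists_eq_add_of_le' hP
    rw [sum_range_succ, ih, wt, Nat.add_sub_cancel]; ring

theorem val1 (hP : P.Prime) (h : IsPrimitiveRoot η (P ^ (k + 1))) (m : ℕ) : ∀ s ≤ k + 1,
    (η - 1) ^ (∑ r ∈ range s with P ^ r ∣ m, wt P r) ∣ η ^ m - 1 := by
  intro s
  induction s with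
  | zero => simp
  | succ s ih =>
    intro hs
    by_cases hm : P ^ s ∣ m
    · rw [filter_true_of_mem fun r hr => (pow_dvd_pow P (Nat.lt_succ_iff.1 (mem_range.1 hr))).trans hm,
        sum_wt hP.one_le]
      obtain ⟨m, rfl⟩ := hm
      obtain ⟨r, hr⟩ := exists_add_pow_prime_pow_eq hP (η - 1) 1 s
      rw [sub_add_cancel, one_pow] at hr
      rw [pow_mul]
      refine Dvd.dvd.trans ?_ (sub_one_dvd_pow_sub_one _ m)
      rw [hr, add_right_comm, add_sub_cancel_right]
      refine dvd_rfl.add ((((Dvd.dvd.trans (pow_dvd_pow _ ?_) (assoc hP h).dvd).mul_right _).mul_right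
        _).mul_right _)
      exact (Nat.pow_le_pow_right hP.pos (by omega)).trans
        (Nat.le_mul_of_pos_right _ (by have := hP.two_le; omega))
    · rw [range_add_one, filter_insert, if_neg hm]
      exact ih (by omega)

theorem val2 (hP : P.Prime) (h : IsPrimitiveRoot η (P ^ (k + 1))) {c l : ℕ}
    (hl : P ^ (k + 1) * (c + 1) ≤ (k + 1) * l) : (P : A) ^ c ∣ ∏ m ∈ range l, (η ^ (m + 1) - 1) := by
  refine Dvd.dvd.trans ?_ (prod_dvd_prod_of_dvd _ _ fun m _ => val1 hP h (m + 1) _ le_rfl)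
  refine (pow_dvd_pow_of_dvd (assoc hP h).symm.dvd c).trans ?_
  rw [← pow_mul, prod_pow_eq_pow_sum]
  refine pow_dvd_pow _ ?_
  simp only [sum_filter]
  rw [sum_comm]
  simp only [← sum_filter, sum_const, Nat.card_multiples, smul_eq_mul]
  obtain ⟨Q, rfl⟩ := Nat.exists_eq_add_of_le' hP.two_le
  have h1 : ∀ r ∈ range (k + 1), (Q + 1) * l ≤
      (Q + 2) * (l / (Q + 2) ^ r * wt (Q + 2) r + wt (Q + 2) r) := by
    rintro (_ | r) -
    · simp [wt]; nlinarith
    · have := Nat.mul_le_mul_left (Q + 1) (Nat.lt_mul_div_succ l (pow_pos hP.pos (r + 1))).le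
      refine this.trans (le_of_eq ?_)
      rw [wt, show Q + 2 - 1 = Q + 1 from rfl]; ring
  have h2 := sum_le_sum h1
  rw [← mul_sum, ← mul_sum, sum_add_distrib, sum_wt hP.one_le, sum_const, card_range,
    smul_eq_mul] at h2
  rw [show Q + 2 - 1 = Q + 1 from rfl]
  refine le_of_mul_le_mul_left (a := Q + 2) ?_ hP.pos
  rw [pow_succ] at hl
  generalize (Q + 2) ^ k = n at *
  nlinarith [Nat.mul_le_mul_left (Q + 1) hl, Nat.zero_le (Q * n)]

open Matrix HG

/-- The Fourier matrix. -/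
def dft (n : ℕ) (η : A) : Matrix (Fin n) (Fin n) A := of fun i j => η ^ (i * j : ℕ)

theorem dft_mul {n : ℕ} (h : IsPrimitiveRoot η (n + 1)) :
    dft (n + 1) η * dft (n + 1) (η ^ n) = ((n + 1 : ℕ) : A) • (1 : Matrix _ _ A) := by
  ext i l
  have e : ∀ j : Fin (n + 1), η ^ (i * j : ℕ) * (η ^ n) ^ (j * l : ℕ) = (η ^ (i + n * l : ℕ)) ^ (j : ℕ) :=
    fun j => by rw [← pow_mul, ← pow_mul, ← pow_add]; congr 1; ring
  have e2 : η ^ (i + n * l : ℕ) * η ^ (l : ℕ) = η ^ (i : ℕ) := by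
    rw [← pow_add, show (i + n * l + l : ℕ) = i + (n + 1) * l by ring, pow_add, pow_mul,
      h.pow_eq_one, one_pow, mul_one]
  simp only [dft, mul_apply, of_apply, e, Matrix.smul_apply, one_apply, smul_eq_mul]
  rw [Fin.sum_univ_eq_sum_range (fun j => (η ^ (i + n * l : ℕ)) ^ j)]
  split_ifs with hil
  · subst hil
    rw [mul_right_cancel₀ (pow_ne_zero _ (h.ne_zero n.succ_ne_zero)) (e2.trans (one_mul _).symm)]
    simp
  · have h1 := mul_geom_sum (η ^ (i + n * l : ℕ)) (n + 1)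
    rw [← pow_mul, mul_comm _ (n + 1), pow_mul, h.pow_eq_one, one_pow, sub_self] at h1
    rw [mul_zero]
    refine (mul_eq_zero.1 h1).resolve_left fun h2 => hil (Fin.ext ?_)
    rw [sub_eq_zero.1 h2, one_mul] at e2
    exact (h.pow_inj l.2 i.2 e2).symm

theorem dft_split (hP : P.Prime) (h : IsPrimitiveRoot η (P ^ (k + 1))) (c : ℕ) :
    ∃ (T : Finset (Fin (P ^ (k + 1)))) (X Y Z : Matrix _ _ A),
      dft _ η = X * mk A T * Y + (P : A) ^ c • Z ∧ (k + 1) * T.card ≤ P ^ (k + 1) * (c + 2) := by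
  set n := P ^ (k + 1) with hn
  let T : Finset (Fin n) := univ.filter fun l => (k + 1) * l < n * (c + 1)
  choose g hg using fun j : Fin n => newton η j n j.2
  let X : Matrix (Fin n) (Fin n) A := of fun i l => ∏ m ∈ range l, (η ^ (i : ℕ) - η ^ m)
  have h1 : ∀ i l, ∃ z, (X * mk A Tᶜ) i l = (P : A) ^ c * z := fun i l => by
    by_cases hl : l ∈ T
    · exact ⟨0, by simp [HG.mk, hl]⟩
    · obtain ⟨z, hz⟩ := (val2 (c := c) hP h (by simpa [T] using hl)).trans (gauss η i l)
      exact ⟨z, by simpa [HG.mk, hl, X] using hz⟩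
  choose Z hZ using h1
  let Y : Matrix (Fin n) (Fin n) A := of fun l j => g j l
  refine ⟨T, X, Y, of Z * Y, ?_, ?_⟩
  · rw [← Matrix.smul_mul, show (P : A) ^ c • of Z = X * mk A Tᶜ by ext i l; exact (hZ i l).symm,
      ← Matrix.add_mul, ← Matrix.mul_add, mk_add, Matrix.mul_one]
    ext i j
    rw [dft, of_apply, pow_mul, hg, mul_apply, ← Fin.sum_univ_eq_sum_range]
    rfl
  · have h2 : T.card ≤ n * (c + 1) / (k + 1) + 1 := by
      rw [← card_range (_ + 1)]
      refine card_le_card_of_injOn Fin.val (fun l hl => ?_) Fin.val_injective.injOn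
      have : (k + 1) * l < n * (c + 1) := by simpa [T] using hl
      simpa [Nat.lt_succ_iff, Nat.le_div_iff_mul_le, mul_comm] using this.le
    have h3 := Nat.mul_div_le (n * (c + 1)) (k + 1)
    have h4 : k + 1 ≤ n := (Nat.lt_pow_self hP.one_lt).le
    nlinarith [Nat.mul_le_mul_left (k + 1) h2]

omit [IsDomain A] in
theorem universal (n : ℕ) (hn : 0 < n) : ∃ (A : Type) (_ : CommRing A) (_ : IsDomain A) (ω : A),
    IsPrimitiveRoot ω n ∧ ∀ (M : Type) [Ring M] (W : M), aeval W (cyclotomic n ℤ) = 0 →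
      ∃ ψ : A →+* M, ψ ω = W ∧ ∀ x, ∃ p : ℤ[X], ψ x = aeval W p := by
  have h1 := AdjoinRoot.isDomain_of_prime (cyclotomic.irreducible hn).prime
  have h2 : CharZero (AdjoinRoot (cyclotomic n ℤ)) := charZero_of_injective_ringHom
    (AdjoinRoot.of.injective_of_degree_ne_zero (degree_cyclotomic_pos n ℤ hn).ne')
  refine ⟨AdjoinRoot (cyclotomic n ℤ), inferInstance, h1, AdjoinRoot.root _, ?_, fun M _ W hW => ?_⟩
  · rw [← isRoot_cyclotomic_iff_charZero hn, ← map_cyclotomic n (AdjoinRoot.of _)]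
    exact AdjoinRoot.isRoot_root _
  · refine ⟨Ideal.Quotient.lift (Ideal.span {cyclotomic n ℤ}) (aeval W).toRingHom fun p hp => ?_,
      aeval_X W, fun x => ?_⟩
    · obtain ⟨q, rfl⟩ := Ideal.mem_span_singleton.1 hp
      simp [hW]
    · obtain ⟨p, rfl⟩ := AdjoinRoot.mk_surjective x
      exact ⟨p, rfl⟩

end Pool.Agent.MP_5daf37_lc.DH
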