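import Pool.Agent.MP_5daf37_lc.DH.D
import Pool.Agent.MP_5daf37_lc.HG.Main

/-!
The small integral system of a circuit with help edges, and the lower bound.
-/

open Matrix Polynomial NumberField

namespace Pool.Agent.MP_5daf37_lc.DH
open FC HG

theorem circ {K F : Type} [Field K] [Field F] (φ : K →+* F)
    {n p q : ℕ} {ι : Type} [Fintype ι] [DecidableEq ι] (C : Circuit F n p q)
    {f : ι → Fin n} (hf : Function.Injective f) (E : Finset (Fin q)) (x : Fin q → K)
    (h0 : ∀ e ∈ E, x e = 0) (hw : ∀ e ∉ E, C.weight e = φ (x e))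
    {H : Matrix (Fin n) (Fin n) F} (hC : C.Computes H) :
    ∃ (A : Matrix ι ι K) (U : Matrix ι E K) (V : Matrix E ι K) (N : Matrix E E K)
      (y : E → F) (V' : Matrix E ι F) (U' : Matrix ι E F),
      Two (fromBlocks A U V N) (fun σ => (2 ^ (p + 2 * q) * ∏ e, max ‖σ (x e)‖ 1) ^ 2) ∧
      (∀ (O : Subring K) (b : Fin q → O), (∀ e, (b e : K) ≠ 0 ∧ b e * x e ∈ O) →
        (∀ e ∈ E, b e = 1) → Re O.subtype (∏ e, b e) (fromBlocks A U V N)) ∧
      H.submatrix f f = A.map φ + U.map φ * diagonal y * V' ∧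
      V' = V.map φ + N.map φ * diagonal y * V' ∧
      H.submatrix f f = A.map φ + U' * diagonal y * V.map φ := by
  let Q₁ : Matrix ι (Fin q ⊕ Fin p) K := fromCols 0 (Cm K C f)
  let Q₂ : Matrix E (Fin q ⊕ Fin p) K := fromCols 0 (of fun e u => if C.tail e = u then 1 else 0)
  let P₁ : Matrix (Fin q ⊕ Fin p) ι K := fromRows 0 (Bm K C f)
  let P₂ : Matrix (Fin q ⊕ Fin p) E K := fromRows (of fun e e' => if e' = e then 1 else 0) 0
  obtain ⟨G, g1, -⟩ := sys_inv C x 1 fun _ => one_ne_zero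
  obtain ⟨G', g2, g3⟩ := sys_inv C C.weight 1 fun _ => one_ne_zero
  simp only [Pi.one_apply, one_mul] at g1 g2
  have e1 : (sys C x 1).det = 1 := by
    rw [sys, diagonal_one', det_fromBlocks_one₁₁, Matrix.neg_mul, Matrix.mul_neg, neg_neg]
    refine Eq.trans ?_ (det_one_sub_Wm C x)
    congr 2
    ext v u
    simp only [Wm, mul_apply, of_apply]
    refine Finset.sum_congr rfl fun e _ => ?_
    by_cases h : C.head e = v <;> simp [h]
  have e2 : sys C C.weight 1 =
      (sys C x 1).map φ - P₂.map φ * diagonal (fun e : E => C.weight e) * Q₂.map φ := by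
    ext (e | v) (e' | u)
    · simp [sys, one_apply, mul_apply, Q₂, apply_ite φ]
    · by_cases he : e ∈ E
      · rw [Matrix.sub_apply, mul_apply, Finset.sum_eq_single ⟨e, he⟩]
        · simp [sys, P₂, Q₂, h0 e he, apply_ite φ]
        · intro c _ hc
          have : ¬ (c : Fin q) = e := fun h => hc (Subtype.ext h)
          simp [P₂, this]
        · simp
      · have : ∀ c : E, ¬ (c : Fin q) = e := fun c h => he (h ▸ c.2)
        rw [Matrix.sub_apply, mul_apply]
        simp [sys, P₂, this, hw e he, apply_ite φ]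
    · simp [sys, mul_apply, P₂, apply_ite φ]
    · simp [sys, one_apply, mul_apply, P₂, apply_ite φ]
  change sys C C.weight 1 * G' = 1 at g2
  change sys C x 1 * G = 1 at g1
  rw [e2] at g2
  have e3 : H.submatrix f f = Q₁.map φ * G' * P₁.map φ := by
    rw [← Circ02.Tm_eq C H f hC, Tm, ← g3, ← fromBlocks_toBlocks G']
    have c1 : (Cm K C f).map φ = Cm F C f := by ext; simp [Cm, apply_ite φ]
    have c2 : (Bm K C f).map φ = Bm F C f := by ext; simp [Bm, apply_ite φ]
    simp only [Q₁, P₁, fromCols_map, fromRows_map, fromCols_mul_fromBlocks, fromCols_mul_fromRows,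
      c1, c2]
    simp
  obtain ⟨r1, r2, r3⟩ := resolvent (show _ * G.map φ = 1 by rw [← Matrix.map_mul, g1]; simp) g2
    (P₁.map φ) (Q₁.map φ)
  have e4 : fromBlocks (Q₁ * G * P₁) (Q₁ * G * P₂) (Q₂ * G * P₁) (Q₂ * G * P₂) =
      fromRows Q₁ Q₂ * G * fromCols P₁ P₂ := by rw [fromRows_mul, fromRows_mul_fromCols]
  refine ⟨Q₁ * G * P₁, Q₁ * G * P₂, Q₂ * G * P₁, Q₂ * G * P₂, fun e => C.weight e, _, _, ?_,
    fun O b hb hE => ?_, by simpa only [Matrix.map_mul, e3] using r1,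
    by simpa only [Matrix.map_mul] using r2, by simpa only [Matrix.map_mul, e3] using r3⟩
  · rw [e4]
    convert two_of (Q := fromRows Q₁ Q₂) (P := fromCols P₁ P₂) g1 e1 (fun σ => Sum.elim
      (fun e => 2 * max ‖σ (x e)‖ 1)
      fun v => 2 ^ (1 + (Finset.univ.filter fun e => C.head e = v).card)) (fun σ => ?_)
      fun σ => ?_ using 3 with σ
    · rw [Fintype.prod_sum_type]
      simp only [Sum.elim_inl, Sum.elim_inr, Finset.prod_mul_distrib, Finset.prod_pow_eq_pow_sum,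
        Finset.sum_add_distrib]
      rw [← Finset.card_eq_sum_card_fiberwise fun e _ =>
        Finset.mem_coe.2 (Finset.mem_univ (C.head e))]
      simp
      ring
    · rintro (i | e) <;> simp [Q₁, Q₂, Cm, Fintype.sum_sum_type, apply_ite σ, apply_ite norm]
    · rintro (e | v)
      · have h3 := le_max_right ‖σ (x e)‖ 1
        have h1 := le_max_left ‖σ (x e)‖ 1
        have h4 := Circ1.sum_ite_le (fun c : E => (c : Fin q) = e) fun i j hi hj =>
          Subtype.ext (hi.trans hj.symm)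
        by_cases he : e ∈ E
        · simp [sys, P₁, P₂, h0 e he, Fintype.sum_sum_type, one_apply, apply_ite σ,
            apply_ite norm] at h4 ⊢
          rw [← Nat.cast_le (α := ℝ), Nat.cast_one] at h4
          linarith
        · have : ∀ c : E, ¬ (c : Fin q) = e := fun c h => he (h ▸ c.2)
          simp [sys, P₁, P₂, this, Fintype.sum_sum_type, one_apply, apply_ite σ, apply_ite norm]
          linarith
      · have h4 := Nat.lt_two_pow_self (n := (Finset.univ.filter fun e => C.head e = v).card)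
        have h5 := Circ1.sum_ite_le (fun j => (∀ e, C.head e ≠ v) ∧ C.label v = f j)
          fun i j hi hj => hf (hi.2.symm.trans hj.2)
        simp [sys, P₁, P₂, Bm, Fintype.sum_sum_type, one_apply, apply_ite σ, apply_ite norm,
          pow_add] at h5 ⊢
        norm_cast
        omega
  · let D : Fin q ⊕ Fin p → K := Sum.elim (fun e => b e) 1
    have d0 : ∀ v, D v ≠ 0 := by rintro (e | v) <;> simp [D, hb]
    have d1 : (sys C (fun e => (⟨_, (hb e).2⟩ : O)) b).map O.subtype = diagonal D * sys C x 1 := by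
      ext (e | v) (e' | u) <;> simp [sys, D, diagonal_apply, one_apply, apply_ite ((↑) : O → K)]
    have d2 : diagonal (fun v => (D v)⁻¹) * fromCols P₁ P₂ = fromCols P₁ P₂ := by
      ext (e | v) (j | c) <;> simp [D, P₁, P₂]
      split_ifs with h
      · simp [← h, hE _ c.2]
      · rfl
    have i1 : ∀ i j, fromRows Q₁ Q₂ i j ∈ O := by
      rintro (i | i) (j | j) <;> simp [Q₁, Q₂, Cm, apply_ite (· ∈ O)]
    have i2 : ∀ i j, fromCols P₁ P₂ i j ∈ O := by
      rintro (i | i) (j | j) <;> simp [P₁, P₂, Bm, apply_ite (· ∈ O)]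
    refine ⟨_, inferInstance, inferInstance, sys C (fun e => (⟨_, (hb e).2⟩ : O)) b,
      G * diagonal fun v => (D v)⁻¹, of fun i j => ⟨_, i1 i j⟩, of fun i j => ⟨_, i2 i j⟩, ?_,
      O.subtype_injective ?_, ?_⟩
    · rw [d1, Matrix.mul_assoc, ← Matrix.mul_assoc _ G, g1, Matrix.one_mul, diagonal_mul_diagonal,
        ← diagonal_one]
      congr 1
      funext v
      exact mul_inv_cancel₀ (d0 v)
    · rw [RingHom.map_det, RingHom.mapMatrix_apply, d1, det_mul, e1, mul_one, det_diagonal,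
        Fintype.prod_sum_type]
      simp [D]
    · refine e4.trans (Eq.trans ?_ (Matrix.mul_assoc (fromRows Q₁ Q₂) _ (fromCols P₁ P₂)).symm)
      rw [Matrix.mul_assoc G, d2, Matrix.mul_assoc]

variable {K : Type} [Field K] [NumberField K]

/-- The valuation ring of a finite place. -/
def loc (v : FinitePlace K) : Subring K where
  carrier := {x | v x ≤ 1}
  mul_mem' {x y} hx hy := by
    exact (map_mul v x y).trans_le (mul_le_one₀ hx (apply_nonneg _ _) hy)
  one_mem' := (map_one v).le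
  add_mem' {x y} hx hy := (v.add_le x y).trans (max_le hx hy)
  zero_mem' := (map_zero v).trans_le zero_le_one
  neg_mem' {x} hx := (map_neg_eq_map v x).trans_le hx

theorem loc_int (v : FinitePlace K) {x : K} (h : IsIntegral ℤ x) : x ∈ loc v :=
  (v.norm_embedding_eq x).symm.trans_le (FinitePlace.norm_le_one K v.maximalIdeal (⟨x, h⟩ : 𝓞 K))

theorem formula {ε : Type} [Fintype ε] (x : ε → K) {y : K} (hy : y ≠ 0) {r T B : ℝ} (hr : 0 ≤ r)
    (hB : 0 ≤ B) (h1 : ∀ v : FinitePlace K, v y ≤ (∏ e, max (v (x e)) 1) ^ 2)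
    (h2 : ∀ σ : K →+* ℂ, r * ‖σ y‖ ≤ (T * ∏ e, max ‖σ (x e)‖ 1) ^ 2 * B) :
    r ≤ T ^ 2 * Real.exp (2 * ((∑ e, Height.logHeight₁ (x e)) / Module.finrank ℚ K)) * B := by
  have D0 : Module.finrank ℚ K ≠ 0 := Module.finrank_pos.ne'
  have s1 : ∀ e, (fun v : FinitePlace K => max (v (x e)) 1).HasFiniteMulSupport := fun e => by
    rcases eq_or_ne (x e) 0 with h | h
    · simp [h, Function.HasFiniteMulSupport]
    · exact (FinitePlace.hasFiniteMulSupport h).subset fun v hv h' => hv (by simp [h'])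
  have a1 : ∏ᶠ v : FinitePlace K, v y ≤ (∏ e, ∏ᶠ v : FinitePlace K, max (v (x e)) 1) ^ 2 := by
    have s2 : (fun v : FinitePlace K => ∏ e, max (v (x e)) 1).HasFiniteMulSupport :=
      Function.HasFiniteMulSupport.prod (fun e => s1 e) _
    rw [← finprod_prod_comm _ _ fun e _ => s1 e, finprod_pow s2]
    exact finprod_le_finprod (FinitePlace.hasFiniteMulSupport hy) (fun v => apply_nonneg _ _)
      (s2.subset fun v hv h' => hv (by simp [h'])) h1
  have a2 : ∏ w : InfinitePlace K, (r * w y) ^ w.mult ≤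
      ∏ w : InfinitePlace K, ((T * ∏ e, max (w (x e)) 1) ^ 2 * B) ^ w.mult :=
    Finset.prod_le_prod (fun w _ => by positivity) fun w _ => pow_le_pow_left₀ (by positivity)
      (by simpa only [InfinitePlace.norm_embedding_eq] using h2 w.embedding) _
  have a5 : ∏ w : InfinitePlace K, ((T * ∏ e, max (w (x e)) 1) ^ 2 * B) ^ w.mult =
      (T ^ 2 * B) ^ Module.finrank ℚ K *
        (∏ e, ∏ w : InfinitePlace K, max (w (x e)) 1 ^ w.mult) ^ 2 := by
    rw [← InfinitePlace.sum_mult_eq, ← Finset.prod_pow_eq_pow_sum, Finset.prod_comm,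
      ← Finset.prod_pow, ← Finset.prod_mul_distrib]
    refine Finset.prod_congr rfl fun w _ => ?_
    rw [Finset.prod_pow]
    ring
  rw [a5] at a2
  simp only [mul_pow r, Finset.prod_mul_distrib, Finset.prod_pow_eq_pow_sum,
    InfinitePlace.sum_mult_eq] at a2
  refine (pow_le_pow_iff_left₀ hr (by positivity) D0).1 ?_
  have a3 := mul_le_mul a2 a1 (finprod_nonneg fun v => apply_nonneg _ _) (by positivity)
  rw [mul_assoc, prod_abs_eq_one hy, mul_one] at a3
  refine a3.trans (le_of_eq ?_)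
  have a4 : Real.exp (2 * ((∑ e, Height.logHeight₁ (x e)) / Module.finrank ℚ K)) ^
      Module.finrank ℚ K = (∏ e, Height.mulHeight₁ (x e)) ^ 2 := by
    rw [← Real.exp_nat_mul, mul_left_comm, mul_div_cancel₀ _ (Nat.cast_ne_zero.2 D0),
      show (2 : ℝ) = (2 : ℕ) by norm_num, Real.exp_nat_mul, Real.exp_sum]
    simp only [Height.logHeight₁_eq_log_mulHeight₁, Real.exp_log (Height.mulHeight₁_pos _)]
  rw [mul_pow _ B, mul_pow _ B, mul_pow (T ^ 2), a4]
  simp only [mulHeight₁_eq, Finset.prod_mul_distrib]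
  ring

theorem ctx {κ : Type} [Fintype κ] {Φ : Matrix κ κ K} {P q : ℕ} (hP : P ≠ 0)
    (hK : ∃! 𝔭 : Ideal (𝓞 K), 𝔭.IsPrime ∧ (P : 𝓞 K) ∈ 𝔭) {E : Finset (Fin q)} {x : Fin q → K}
    (h0 : ∀ e ∈ E, x e = 0) {T : ℝ}
    (h1 : Two Φ fun σ => (T * ∏ e, max ‖σ (x e)‖ 1) ^ 2)
    (h2 : ∀ (O : Subring K) (b : Fin q → O), (∀ e, (b e : K) ≠ 0 ∧ b e * x e ∈ O) →
      (∀ e ∈ E, b e = 1) → Re O.subtype (∏ e, b e) Φ) :
    ∃ c v₀, Ctx loc c v₀ P Φ (fun σ => (T * ∏ e, max ‖σ (x e)‖ 1) ^ 2)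
      (T ^ 2 * Real.exp (2 * ((∑ e, Height.logHeight₁ (x e)) / Module.finrank ℚ K))) := by
  obtain ⟨𝔭, ⟨p1, p2⟩, p3⟩ := hK
  have p0 : (P : K) ≠ 0 := Nat.cast_ne_zero.2 hP
  have hb : ∀ (v : FinitePlace K) (z : K), ∃ b : loc v, (b : K) ≠ 0 ∧ b * z ∈ loc v ∧
      (z = 0 → b = 1) ∧ v b * max (v z) 1 = 1 := fun v z => by
    rcases le_or_gt (v z) 1 with h | h
    · exact ⟨1, one_ne_zero, (one_mul z).symm ▸ h, fun _ => rfl, by simp [h]⟩
    · have z0 : z ≠ 0 := FinitePlace.pos_iff.1 (zero_lt_one.trans h)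
      refine ⟨⟨z⁻¹, (map_inv₀ v z).trans_le (inv_le_one_of_one_le₀ h.le)⟩, inv_ne_zero z0, by
        simp [z0], fun h' => (z0 h').elim, ?_⟩
      rw [max_eq_left h.le, ← map_mul, inv_mul_cancel₀ z0, map_one]
  choose b b1 b2 b3 b4 using hb
  refine ⟨fun v => ∏ e, b v (x e), .mk ⟨𝔭, p1, fun h => hP (by simpa [h] using p2)⟩,
    fun v => h2 _ _ (fun e => ⟨b1 _ _, b2 _ _⟩) fun e he => b3 _ _ (h0 e he), fun z => ?_, h1,
    fun y e r B y0 a1 ⟨z, a2⟩ r0 B0 a3 => ?_⟩
  · generalize FinitePlace.mk (K := K) _ = v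
    exact (le_or_gt (v z) 1).imp id fun h => (map_inv₀ v z).trans_le (inv_le_one_of_one_le₀ h.le)
  refine formula x (div_ne_zero y0 (pow_ne_zero e p0)) (by positivity) B0 (fun v => ?_)
    fun σ => le_of_eq_of_le ?_ (a3 σ)
  · have a4 : v ((∏ e, b v (x e) : loc v) ^ 2 * (y / P ^ e)) ≤ 1 := by
      by_cases hv : v.maximalIdeal.asIdeal = 𝔭
      · obtain rfl : FinitePlace.mk ⟨𝔭, p1, fun h => hP (by simpa [h] using p2)⟩ = v := by
          rw [← v.mk_maximalIdeal]
          congr 1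
          exact IsDedekindDomain.HeightOneSpectrum.ext hv.symm
        rw [← mul_div_assoc, a2, mul_div_cancel_left₀ _ (pow_ne_zero e p0)]
        exact z.2
      · have : v P = 1 := (v.norm_embedding_eq P).symm.trans
          ((FinitePlace.norm_eq_one_iff_notMem K v.maximalIdeal (P : 𝓞 K)).2 fun h =>
            hv (p3 _ ⟨v.maximalIdeal.isPrime, h⟩))
        rw [← mul_div_assoc, map_div₀, map_pow v (P : K), this, one_pow, div_one]
        exact a1 v
    have a5 : v (∏ e, b v (x e) : loc v) * ∏ e, max (v (x e)) 1 = 1 := by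
      rw [SubmonoidClass.coe_finsetProd, map_prod, ← Finset.prod_mul_distrib]
      exact Finset.prod_eq_one fun e _ => b4 _ _
    have a6 := mul_le_mul_of_nonneg_left a4 (sq_nonneg (∏ e, max (v (x e)) 1))
    rwa [map_mul, map_pow, ← mul_assoc, ← mul_pow, mul_comm (∏ e, max (v (x e)) 1), a5, one_pow,
      one_mul, mul_one] at a6
  · have : (P : ℝ) ≠ 0 := Nat.cast_ne_zero.2 hP
    simp only [map_div₀, map_pow, map_natCast, norm_div, norm_pow, Complex.norm_natCast]
    field_simp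

theorem main {F : Type} [Field F] (φ : K →+* F) {P k t n p q : ℕ}
    (hP : P.Prime) (hK : ∃! 𝔭 : Ideal (𝓞 K), 𝔭.IsPrime ∧ (P : 𝓞 K) ∈ 𝔭) (hk : 10 ^ 6 ≤ k)
    (W : Matrix (Fin t) (Fin t) K) (hW : aeval W (cyclotomic (P ^ k) ℤ) = 0)
    (hI : ∀ (j : ℕ) x y, IsIntegral ℤ (P * (W ^ j) x y))
    (hU : ∀ σ : K →+* ℂ, W.map σ ∈ unitaryGroup (Fin t) ℂ)
    (A : Matrix (Fin n) (Fin n) F) (f : Fin (P ^ k) × Fin t → Fin n) (hf : Function.Injective f)
    (hA : ∀ x y, A (f x) (f y) = φ ((W ^ (x.1 * y.1 : ℕ)) x.2 y.2))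
    (C : Circuit F n p q) (hC : C.Computes A) (E : Finset (Fin q))
    (hE : 200 * E.card ≤ 201 * (P ^ k * t)) (x : Fin q → K)
    (hw : ∀ e ∉ E, C.weight e = φ (x e)) :
    (P : ℝ) ^ k * t * (k * Real.logb 2 P / 10 ^ 6 - 2) ≤
      p + q + (∑ e ∈ Eᶜ, Height.logHeight₁ (x e)) / Module.finrank ℚ K := by
  obtain ⟨k, rfl⟩ := Nat.exists_eq_add_of_le' (show 1 ≤ k by omega)
  let x' : Fin q → K := fun e => if e ∈ E then 0 else x e
  have x0 : ∀ e ∈ E, x' e = 0 := fun e he => if_pos he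
  obtain ⟨A₀, U, V, N₀, y, V', U', c0, c0', c1, c2, c3⟩ := circ φ C hf E x' x0
    (fun e he => by simpa [x', he] using hw e he) hC
  obtain ⟨d, v₀, c4⟩ := ctx hP.ne_zero hK x0 c0 c0'
  rw [show ∑ e, Height.logHeight₁ (x' e) = ∑ e ∈ Eᶜ, Height.logHeight₁ (x e) by
    rw [← Finset.sum_add_sum_compl E, Finset.sum_eq_zero fun e he => by simp [x0 e he], zero_add]
    exact Finset.sum_congr rfl fun e he => by simp [x', Finset.mem_compl.1 he]] at c4
  have h5 : 0 ≤ (∑ e ∈ Eᶜ, Height.logHeight₁ (x e)) / Module.finrank ℚ K := by positivity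
  generalize (∑ e ∈ Eᶜ, Height.logHeight₁ (x e)) / Module.finrank ℚ K = h at *
  obtain ⟨R, _, _, ω, hω, hR⟩ := universal (P ^ (k + 1)) (pow_pos hP.pos _)
  obtain ⟨ψ, ψ1, ψ2⟩ := hR _ W hW
  let Ψ := (compRingEquiv (Fin (P ^ (k + 1))) (Fin t) K).toRingHom.comp ψ.mapMatrix
  have p0 : (P : K) ≠ 0 := Nat.cast_ne_zero.2 hP.ne_zero
  have i1 : ∀ M v i j, ((P : K) • Ψ M) i j ∈ loc v := fun M v i j => by
    have : ∀ (r : ℤ[X]) x y, IsIntegral ℤ (P * aeval W r x y) := fun r x y => by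
      induction r using Polynomial.induction_on' with
      | add r r' h1 h2 => simpa [mul_add] using h1.add h2
      | monomial j c =>
        rw [aeval_monomial, ← Algebra.smul_def, Matrix.smul_apply, mul_smul_comm]
        exact (hI j x y).zsmul c
    obtain ⟨r, hr⟩ := ψ2 (M i.1 j.1)
    exact loc_int v (x := P * ψ (M i.1 j.1) i.2 j.2) (hr ▸ this r _ _)
  have i2 : ∀ (c : ℕ) M, Ψ ((P : R) ^ c • M) = (P : K) ^ c • Ψ M := fun c M => by
    rw [← Nat.cast_pow, ← Nat.cast_pow, Nat.cast_smul_eq_nsmul, Nat.cast_smul_eq_nsmul, map_nsmul]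
  have hn : Fintype.card (Fin (P ^ (k + 1)) × Fin t) = P ^ (k + 1) * t := by simp
  have i3 : ∀ η : R, IsPrimitiveRoot η (P ^ (k + 1)) → Spread (loc v₀) P (k + 1) (Ψ (dft _ η)) :=
    fun η hη c => by
      obtain ⟨T, X, Y, Z, h1, h2⟩ := dft_split hP hη (c + 1)
      refine ⟨Ψ X * Ψ (mk R T) * Ψ Y, _, i1 Z v₀, by
        rw [h1, map_add, map_mul, map_mul, i2, pow_succ (P : K), ← smul_smul], ?_⟩
      have e : Ψ (mk R T) = mk K (T ×ˢ Finset.univ) := by
        ext ⟨i, x⟩ ⟨j, y⟩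
        by_cases hij : i = j <;> by_cases hi : j ∈ T <;>
          simp [Ψ, HG.mk, diagonal_apply, one_apply, hij, hi]
      have h4 := (rank_mul_le_left (Ψ X * Ψ (mk R T)) (Ψ Y)).trans ((rank_mul_le_right _ _).trans
        (e ▸ rank_mk _))
      rw [Finset.card_product, Finset.card_univ, Fintype.card_fin] at h4
      rw [hn]
      nlinarith [Nat.mul_le_mul_left (k + 1) h4, Nat.mul_le_mul_right t h2]
  have i4 : ∀ (m : ℕ) (σ : K →+* ℂ) i, ∑ j, ‖(Ψ (dft _ (ω ^ m))).map σ i j‖ ^ 2 ≤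
      (P : ℝ) ^ (k + 1) := fun m σ i => by
    have : ∀ (j : ℕ) x, ∑ y, ‖σ ((W ^ j) x y)‖ ^ 2 = 1 := fun j x => by
      have h1 := congrFun (congrFun (mem_unitaryGroup_iff.1 (pow_mem (hU σ) j)) x) x
      rw [← RingHom.mapMatrix_apply, ← map_pow] at h1
      simp only [mul_apply, star_apply, RingHom.mapMatrix_apply, map_apply, one_apply_eq,
        Complex.star_def, Complex.mul_conj'] at h1
      exact_mod_cast h1
    simp [Fintype.sum_prod_type, Ψ, dft, ψ1, ← pow_mul, this]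
  obtain ⟨m, hm⟩ := Nat.exists_eq_add_of_le' (pow_pos hP.pos (k + 1))
  have i5 : Ψ (dft _ ω) * Ψ (dft _ (ω ^ m)) = (P : K) ^ (k + 1) • 1 := by
    rw [← map_mul, ← map_one Ψ, ← i2, ← Nat.cast_pow]
    congr 1
    generalize P ^ (k + 1) = n at hm hω
    subst hm
    exact dft_mul hω
  have e0 : A.submatrix f f = (Ψ (dft _ ω)).map φ := by
    ext x z; simp [hA, Ψ, dft, ψ1]
  rw [e0] at c1 c3
  have h1 := abs_bound (u := (k + 1) / 1000) (one_le_mul_of_one_le_of_one_le
    (one_le_pow₀ (one_le_pow₀ one_le_two)) (Real.one_le_exp (by positivity))) hP.one_lt p0 c4 i5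
    (by simpa using i4 1) (i4 m)
    (i3 ω hω) (i3 _ (hω.pow_of_coprime m (by simp [hm]))) (i1 _) φ c1 c2 c3
    (by rwa [hn, Fintype.card_coe]) (by omega) (by omega) (by omega)
  obtain ⟨u, hu, u1⟩ : ∃ u, (k + 1) / 1000 = u ∧ k + 1 ≤ 1002 * u := ⟨_, rfl, by omega⟩
  rw [hu, hn] at h1
  have p1 : (1 : ℝ) < P := by exact_mod_cast hP.one_lt
  have h2 := Real.logb_le_logb_of_le one_lt_two (by positivity) h1
  rw [Real.logb_pow, Real.logb_pow, Real.logb_mul (by positivity) (by positivity),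
    Real.logb_mul (by positivity) (by positivity), Real.logb_pow, Real.logb_pow, Real.logb_pow,
    Real.logb_self_eq_one one_lt_two, Real.logb, Real.logb, Real.log_exp, ← Real.logb] at h2
  have h8 : 2 * h / Real.log 2 ≤ 4 * h := by
    rw [div_le_iff₀ (Real.log_pos one_lt_two)]
    nlinarith only [Real.log_two_gt_d9, h5]
  have h3 := (Real.logb_pos one_lt_two p1).le
  have h4 : ((k + 1 : ℕ) : ℝ) ≤ 1002 * u := by exact_mod_cast u1
  have h6 : (0 : ℝ) ≤ P ^ (k + 1) * t := by positivity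
  have h7 := mul_le_mul_of_nonneg_left (mul_le_mul_of_nonneg_right h4 h3) h6
  have h9 : (0 : ℝ) ≤ p := by positivity
  push_cast at h2 h7 ⊢
  linarith only [h2, h5, h6, h7, h8, h9, (Nat.cast_nonneg q : (0 : ℝ) ≤ q)]

end Pool.Agent.MP_5daf37_lc.DH
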