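import Pool.Agent.MP_5daf37_lc.DH.E

/-!
The hypotheses of the lower bound hold for the Fourier matrix and for the negacyclic shift.
-/

open Matrix Polynomial NumberField

namespace Pool.Agent.MP_5daf37_lc.DH

theorem one_prime {O : Type} [CommRing O] [IsDedekindDomain O] {π x : O} (hπ : Prime π) {e : ℕ}
    (he : e ≠ 0) (h : Associated (π ^ e) x) : ∃! 𝔭 : Ideal O, 𝔭.IsPrime ∧ x ∈ 𝔭 := by
  have h1 := (Ideal.span_singleton_prime hπ.ne_zero).2 hπ
  refine ⟨Ideal.span {π}, ⟨h1, Ideal.mem_span_singleton.2 ((dvd_pow_self π he).trans h.dvd)⟩, ?_⟩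
  rintro 𝔮 ⟨h2, h3⟩
  refine ((h1.isMaximal (by simpa using hπ.ne_zero)).eq_of_le h2.ne_top ?_).symm
  rw [Ideal.span_singleton_le_iff_mem]
  exact h2.mem_of_pow_mem e (𝔮.mem_of_dvd h.symm.dvd h3)

/-- The rationals have one prime above `P`. -/
theorem rat_one {P : ℕ} (hP : P.Prime) : ∃! 𝔭 : Ideal (𝓞 ℚ), 𝔭.IsPrime ∧ (P : 𝓞 ℚ) ∈ 𝔭 :=
  one_prime (e := 1) (by
    simpa using (MulEquiv.prime_iff Rat.ringOfIntegersEquiv.symm).2 (Nat.prime_iff_prime_int.1 hP))
    one_ne_zero (by simp)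

/-- The Fourier matrix of prime power order over the cyclotomic field. -/
theorem dft_inst {K : Type} [Field K] [NumberField K] {P k : ℕ} (hP : P.Prime)
    [IsCyclotomicExtension {P ^ (k + 1)} ℚ K] {ζ : K} (hζ : IsPrimitiveRoot ζ (P ^ (k + 1))) :
    (∃! 𝔭 : Ideal (𝓞 K), 𝔭.IsPrime ∧ (P : 𝓞 K) ∈ 𝔭) ∧
    aeval (scalar (Fin 1) ζ) (cyclotomic (P ^ (k + 1)) ℤ) = 0 ∧
    (∀ (j : ℕ) x y, IsIntegral ℤ (P * (scalar (Fin 1) ζ ^ j) x y)) ∧
    ∀ σ : K →+* ℂ, (scalar (Fin 1) ζ).map σ ∈ unitaryGroup (Fin 1) ℂ := by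
  have := Fact.mk hP
  have h0 := pow_pos hP.pos (k + 1)
  refine ⟨one_prime hζ.zeta_sub_one_prime (mul_ne_zero (pow_ne_zero k hP.ne_zero)
    (Nat.sub_ne_zero_of_lt hP.one_lt)) (assoc hP hζ.toInteger_isPrimitiveRoot), ?_,
    fun j x y => ?_, fun σ => ?_⟩
  · have h1 : aeval ζ (cyclotomic (P ^ (k + 1)) ℤ) = 0 := by
      rw [aeval_def, ← eval_map, map_cyclotomic]
      exact hζ.isRoot_cyclotomic h0
    rw [show scalar (Fin 1) ζ = (scalar (Fin 1) : K →+* _).toIntAlgHom ζ from rfl, aeval_algHom_apply,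
      h1, map_zero]
  · rw [← map_pow, Subsingleton.elim x y]
    simpa using (isIntegral_natCast P).mul ((hζ.isIntegral h0).pow j)
  · rw [mem_unitaryGroup_iff]
    ext i j
    have := (hζ.map_of_injective σ.injective).norm'_eq_one h0.ne'
    obtain rfl := Subsingleton.elim i 0
    obtain rfl := Subsingleton.elim j 0
    simp [mul_apply, Complex.mul_conj', this]

/-- The signed shift by `j` places. -/
def neg (R : Type) [CommRing R] (t j : ℕ) : Matrix (Fin t) (Fin t) R :=
  of fun a b => if a.val = b.val + j then 1 else if a.val + t = b.val + j then -1 else 0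

theorem neg_pow (R : Type) [CommRing R] (t : ℕ) : ∀ j ≤ t, neg R t 1 ^ j = neg R t j := by
  intro j
  induction j with
  | zero =>
    intro _
    ext a b
    have := a.2
    have := b.2
    simp only [pow_zero, neg, one_apply, of_apply, Fin.ext_iff, add_zero]
    split_ifs <;> first | rfl | omega
  | succ j ih =>
    intro hj
    ext a b
    have := a.2
    have := b.2
    rw [pow_succ', ih (by omega), mul_apply,
      Finset.sum_eq_single ⟨if a.val = 0 then t - 1 else a - 1, by split_ifs <;> omega⟩]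
    · simp only [neg, of_apply]
      split_ifs <;> first | omega | simp
    · intro c _ hc
      have := c.2
      have h1 : c.val ≠ if a.val = 0 then t - 1 else a - 1 := fun h => hc (Fin.ext h)
      simp only [neg, of_apply]
      rw [if_neg, if_neg, zero_mul] <;> split_ifs at h1 <;> omega
    · simp

/-- The negacyclic shift over the rationals. -/
theorem neg_inst (k : ℕ) : aeval (neg ℚ (2 ^ k) 1) (cyclotomic (2 ^ (k + 1)) ℤ) = 0 ∧
    (∀ (j : ℕ) x y, IsIntegral ℤ ((2 : ℕ) * (neg ℚ (2 ^ k) 1 ^ j) x y)) ∧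
    ∀ σ : ℚ →+* ℂ, (neg ℚ (2 ^ k) 1).map σ ∈ unitaryGroup (Fin (2 ^ k)) ℂ := by
  have e1 : ∀ (R : Type) [CommRing R] (t : ℕ), neg R t 1 ^ t = -1 := fun R _ t => by
    rw [neg_pow R t t le_rfl]
    ext a b
    have := a.2
    simp only [neg, one_apply, of_apply, Fin.ext_iff, Matrix.neg_apply]
    split_ifs <;> first | omega | simp
  have e2 : ∀ {R S : Type} [CommRing R] [CommRing S] (φ : R →+* S) (t : ℕ),
      (neg R t 1).map φ = neg S t 1 := fun φ t => by
    ext a b; simp [neg, apply_ite φ]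
  refine ⟨?_, fun j x y => ?_, fun σ => ?_⟩
  · rw [cyclotomic_prime_pow_eq_geom_sum Nat.prime_two]
    simp [Finset.sum_range_succ, e1]
  · rw [← e2 (algebraMap ℤ ℚ), ← RingHom.mapMatrix_apply, ← map_pow]
    exact (isIntegral_natCast 2).mul isIntegral_algebraMap
  · obtain ⟨t, ht⟩ := Nat.exists_eq_add_of_le' (Nat.two_pow_pos k)
    rw [e2, mem_unitaryGroup_iff, ht]
    have e3 : star (neg ℂ (t + 1) 1) = -neg ℂ (t + 1) 1 ^ t := by
      rw [neg_pow ℂ _ t t.le_succ]
      ext a b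
      have := a.2
      have := b.2
      simp only [neg, star_apply, of_apply, Matrix.neg_apply]
      split_ifs <;> first | omega | simp
    rw [e3, Matrix.mul_neg, ← pow_succ', e1, neg_neg]

end Pool.Agent.MP_5daf37_lc.DH
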